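import Pool.Agent.Run7.h912.PA.Disc
import Pool.Agent.Run7.h84.US.Cor

set_option autoImplicit false

/-! # The lower bound for the exponents of patterns -/

open Finset Filter Topology
open Pool.Agent.Run7.h70.IHP
open Pool.Agent.Run7.h84.US (pr prInf bg crs)

namespace Run7.h912.PA

theorem cov_smul {n : ℕ} {B : Set (E n)} (hB : Bornology.IsBounded B) {α δ : ℝ} (hα : α ≠ 0)
    (hδ : 0 < δ) : coverNum ((fun x => α⁻¹ • x) '' B) δ ≤ coverNum B (|α| * δ) := by
  have hα' : 0 < |α| := abs_pos.2 hα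
  obtain ⟨U, h1, h2⟩ := exists_cover hB (δ := |α| * δ) (by positivity)
  refine Nat.sInf_le ⟨fun i => (fun x => α⁻¹ • x) '' U i, ?_, ?_⟩
  · rintro i _ ⟨x, hx, rfl⟩ _ ⟨y, hy, rfl⟩
    have h3 := h1 i x hx y hy
    rw [dist_eq_norm] at h3 ⊢
    simp only
    rw [← smul_sub, norm_smul, norm_inv, Real.norm_eq_abs, inv_mul_le_iff₀ hα']
    exact h3
  · rintro _ ⟨x, hx, rfl⟩
    obtain ⟨i, hi⟩ := Set.mem_iUnion.1 (h2 hx)
    exact Set.mem_iUnion.2 ⟨i, x, hi, rfl⟩

theorem main_bound {K : Set ℝ} (F : Frame K) (T' : Finset ℝ) (hT' : ∀ t ∈ T', t ∈ K) {s₁ : ℝ}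
    (hs₁ : s₁ ∈ T') {κ C : ℝ} (hκ : 1 ≤ κ) (hC : 1 ≤ C)
    (hbound : ∀ A : Finset (ℝ × ℝ), ((A.image Prod.snd).card : ℝ) ≤
      C * ((T'.sup fun t => (A.image fun p => p.1 + t * p.2).card : ℕ) : ℝ) ^ κ)
    (T : Set ℝ) {α β : ℝ} (hα : α ≠ 0) (hTT : ∀ t' ∈ T', β + α * t' ∈ T) (n : ℕ) :
    ((n / κ : ℝ) : EReal) ≤ fM T n := by
  classical
  refine le_iInf fun B => le_iInf fun hB => le_iInf fun hP => ?_
  set B' : Set (E n) := (fun x => α⁻¹ • x) '' B with hB'def
  have hκ0 : 0 < κ := by linarith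
  have hα' : 0 < |α| := abs_pos.2 hα
  have hB' : Bornology.IsBounded B' := by
    obtain ⟨R, hR⟩ := hB.exists_norm_le
    rw [isBounded_iff_forall_norm_le]
    refine ⟨|α|⁻¹ * R, ?_⟩
    rintro _ ⟨x, hx, rfl⟩
    simp only
    rw [norm_smul, norm_inv, Real.norm_eq_abs]
    exact mul_le_mul_of_nonneg_left (hR x hx) (by positivity)
  have hP' : HasPattern (T' : Set ℝ) (cube n) B' := by
    intro r hr
    obtain ⟨a, ha⟩ := hP r hr
    refine ⟨α⁻¹ • (a + β • r), fun t' ht' => ⟨a + (β + α * t') • r, ha _ (hTT t' ht'), ?_⟩⟩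
    simp only
    rw [smul_add, smul_add, smul_smul, smul_smul, add_assoc, ← add_smul]
    congr 2
    field_simp
  obtain ⟨c, Q, hc, hQ, L₀, hL₀, hdisc⟩ := disc F T' hT' hs₁ hB' hP'
  by_contra hcon
  push Not at hcon
  obtain ⟨y, hy1, hy2⟩ := EReal.lt_iff_exists_real_btwn.mp hcon
  have hy : y < n / κ := by exact_mod_cast hy2
  have hev : ∀ᶠ δ : ℝ in 𝓝[>] (0 : ℝ),
      ((Real.log (coverNum B δ) / Real.log (1 / δ) : ℝ) : EReal) < y :=
    eventually_lt_of_limsup_lt hy1 (by isBoundedDefault)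
  have hD := F.hD
  have htend0 : Tendsto (fun L : ℕ => |α| * (1 / (L : ℝ) ^ F.D)) atTop (𝓝 0) := by
    have h1 : Tendsto (fun L : ℕ => 1 / (L : ℝ) ^ F.D) atTop (𝓝 0) := by
      have h2 : Tendsto (fun L : ℕ => ((L : ℝ) ^ F.D)⁻¹) atTop (𝓝 0) :=
        (tendsto_pow_atTop (by omega)).comp tendsto_natCast_atTop_atTop |>.inv_tendsto_atTop
      simpa only [one_div] using h2
    have h3 := h1.const_mul |α|
    rwa [mul_zero] at h3
  have htend : Tendsto (fun L : ℕ => |α| * (1 / (L : ℝ) ^ F.D)) atTop (𝓝[>] 0) := by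
    refine tendsto_nhdsWithin_iff.2 ⟨htend0, ?_⟩
    filter_upwards [eventually_ge_atTop 1] with L hL
    have : (0 : ℝ) < L := by exact_mod_cast hL
    exact Set.mem_Ioi.2 (by positivity)
  have hlog : Tendsto (fun L : ℕ => Real.log (L : ℝ)) atTop atTop :=
    Real.tendsto_log_atTop.comp tendsto_natCast_atTop_atTop
  set EE : ℝ := Real.log C + κ * Real.log Q - n * Real.log c with hEE
  set a : ℝ := Real.log |α| with ha
  have hg : 0 < ((n : ℝ) - κ * y) * F.D := by
    have h1 : κ * y < n := by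
      rw [lt_div_iff₀ hκ0] at hy
      linarith
    have h2 : (0 : ℝ) < F.D := by exact_mod_cast hD
    have : 0 < (n : ℝ) - κ * y := by linarith
    positivity
  obtain ⟨L, h1, h2, h3, h4, h5⟩ := ((htend.eventually hev).and ((eventually_ge_atTop L₀).and
    ((eventually_ge_atTop 2).and
    ((hlog.eventually (eventually_gt_atTop ((EE - κ * y * a) / (((n : ℝ) - κ * y) * F.D)))).and
      (hlog.eventually (eventually_gt_atTop |a|)))))).exists
  have hL2 : (2 : ℝ) ≤ L := by exact_mod_cast h3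
  have hL0 : (0 : ℝ) < L := by linarith
  set N : ℕ := coverNum B (|α| * (1 / (L : ℝ) ^ F.D)) with hN
  obtain ⟨A, hA1, hA2⟩ := hdisc L h2
  have hsup : ((T'.sup fun t => (A.image fun p => p.1 + t * p.2).card : ℕ) : ℝ) ≤ Q * N := by
    have h6 : (T'.sup fun t => (A.image fun p => p.1 + t * p.2).card) ≤ ⌊Q * N⌋₊ := by
      refine Finset.sup_le fun t ht => Nat.le_floor ((hA2 t ht).trans ?_)
      refine mul_le_mul_of_nonneg_left ?_ hQ.le
      exact Nat.cast_le.2 (cov_smul hB hα (by positivity))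
    exact (Nat.cast_le.2 h6).trans (Nat.floor_le (by positivity))
  have hmain : (c * (L : ℝ) ^ F.D) ^ n ≤ C * (Q * N) ^ κ :=
    (hA1.trans (hbound A)).trans (mul_le_mul_of_nonneg_left
      (Real.rpow_le_rpow (Nat.cast_nonneg _) hsup hκ0.le) (by linarith))
  have hN0 : 0 < N := by
    rcases Nat.eq_zero_or_pos N with h | h
    · rw [h, Nat.cast_zero, mul_zero, Real.zero_rpow hκ0.ne', mul_zero] at hmain
      have : 0 < (c * (L : ℝ) ^ F.D) ^ n := by positivity
      linarith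
    · exact h
  have hNr : (0 : ℝ) < N := by exact_mod_cast hN0
  have hlg := Real.log_le_log (by positivity) hmain
  rw [Real.log_pow, Real.log_mul hc.ne' (by positivity), Real.log_pow,
    Real.log_mul (by positivity) (by positivity), Real.log_rpow (by positivity),
    Real.log_mul hQ.ne' hNr.ne'] at hlg
  have h1' : Real.log (N : ℝ) / Real.log (1 / (|α| * (1 / (L : ℝ) ^ F.D))) < y := by
    exact_mod_cast h1
  have hl : Real.log (1 / (|α| * (1 / (L : ℝ) ^ F.D))) = F.D * Real.log L - a := by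
    rw [one_div, Real.log_inv, Real.log_mul hα'.ne' (by positivity), one_div, Real.log_inv,
      Real.log_pow]
    ring
  have hDr : (1 : ℝ) ≤ F.D := by exact_mod_cast hD
  have hlp : 0 < (F.D : ℝ) * Real.log L - a := by
    have h6 := le_abs_self a
    have h7 : 0 ≤ Real.log L := Real.log_nonneg (by linarith)
    nlinarith
  rw [hl, div_lt_iff₀ hlp] at h1'
  rw [div_lt_iff₀ hg] at h4
  have h8 : κ * Real.log N < κ * (y * (F.D * Real.log L - a)) := mul_lt_mul_of_pos_left h1' hκ0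
  rw [hEE] at h4
  nlinarith

/-- the change of coordinates which moves the slope `t₁` to infinity and infinity to `-1` -/
theorem change (T : Finset ℝ) {t₁ : ℝ} (h₁ : t₁ ∈ T) (A : Finset (ℝ × ℝ)) :
    ∃ A' : Finset (ℝ × ℝ), (pr (-1) A').card = (A.image Prod.snd).card ∧
      bg ((T.erase t₁).image fun t => 1 / (t - t₁) - 1) A' ≤
        T.sup fun t => (A.image fun p => p.1 + t * p.2).card := by
  classical
  refine ⟨A.image (fun p => (p.1 + (t₁ + 1) * p.2, p.1 + t₁ * p.2)), ?_, ?_⟩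
  · unfold pr
    rw [image_image]
    congr 2
    funext p
    simp only [Function.comp]
    ring
  · refine max_le ?_ (Finset.sup_le fun s hs => ?_)
    · have h : prInf (A.image (fun p => (p.1 + (t₁ + 1) * p.2, p.1 + t₁ * p.2))) =
          A.image fun p => p.1 + t₁ * p.2 := by
        unfold prInf
        rw [image_image]
        rfl
      rw [h]
      exact Finset.le_sup (f := fun t => (A.image fun p => p.1 + t * p.2).card) h₁
    · obtain ⟨t, ht, rfl⟩ := mem_image.1 hs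
      rw [mem_erase] at ht
      have hne : t - t₁ ≠ 0 := sub_ne_zero.2 ht.1
      have h : pr (1 / (t - t₁) - 1) (A.image (fun p => (p.1 + (t₁ + 1) * p.2, p.1 + t₁ * p.2))) =
          (A.image fun p => p.1 + t * p.2).image fun x => 1 / (t - t₁) * x := by
        unfold pr
        rw [image_image, image_image]
        congr 1
        funext p
        simp only [Function.comp]
        field_simp
        ring
      rw [h]
      exact card_image_le.trans
        (Finset.le_sup (f := fun t => (A.image fun p => p.1 + t * p.2).card) ht.2)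

/-- the discrete bound -/
theorem discrete (T : Finset ℝ) {t₀ t₁ t₂ : ℝ} (m₀ : t₀ ∈ T) (m₁ : t₁ ∈ T) (m₂ : t₂ ∈ T)
    (h₁ : t₁ ≠ t₀) (h₂ : t₂ ≠ t₁) (h₃ : t₂ ≠ t₀)
    (hρ : (t₂ - t₀) / (t₁ - t₀) ∈ Subfield.closure
      {x | ∃ t ∈ T, t ≠ t₁ ∧ x = ((t - t₀) * (t₂ - t₁)) / ((t - t₁) * (t₂ - t₀))}) :
    ∃ κ C : ℝ, 1 ≤ κ ∧ κ < 2 ∧ 1 ≤ C ∧ ∀ A : Finset (ℝ × ℝ), ((A.image Prod.snd).card : ℝ) ≤
      C * ((T.sup fun t => (A.image fun p => p.1 + t * p.2).card : ℕ) : ℝ) ^ κ := by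
  classical
  set S : Finset ℝ := (T.erase t₁).image fun t => 1 / (t - t₁) - 1 with hS
  set a : ℝ := 1 / (t₀ - t₁) - 1 with ha
  set b : ℝ := 1 / (t₂ - t₁) - 1 with hb
  have n01 : t₀ - t₁ ≠ 0 := sub_ne_zero.2 h₁.symm
  have n21 : t₂ - t₁ ≠ 0 := sub_ne_zero.2 h₂
  have n20 : t₂ - t₀ ≠ 0 := sub_ne_zero.2 h₃
  have n10 : t₁ - t₀ ≠ 0 := sub_ne_zero.2 h₁
  have haS : a ∈ S := mem_image.2 ⟨t₀, mem_erase.2 ⟨h₁.symm, m₀⟩, rfl⟩
  have hbS : b ∈ S := mem_image.2 ⟨t₂, mem_erase.2 ⟨h₂, m₂⟩, rfl⟩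
  have hba : b - a = (t₀ - t₂) / ((t₂ - t₁) * (t₀ - t₁)) := by
    rw [ha, hb]
    field_simp
    ring
  have n02 : t₀ - t₂ ≠ 0 := sub_ne_zero.2 h₃.symm
  have hba0 : b - a ≠ 0 := by
    rw [hba]
    exact div_ne_zero n02 (mul_ne_zero n21 n01)
  have hab : a ≠ b := fun h => hba0 (by rw [h, sub_self])
  have hcrs : crs S a b =
      {x | ∃ t ∈ T, t ≠ t₁ ∧ x = ((t - t₀) * (t₂ - t₁)) / ((t - t₁) * (t₂ - t₀))} := by
    ext x
    simp only [crs, Set.mem_ofPred_eq, hS, mem_image, mem_erase]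
    have e : ∀ t : ℝ, t ≠ t₁ → (1 / (t - t₁) - 1 - a) / (b - a) =
        ((t - t₀) * (t₂ - t₁)) / ((t - t₁) * (t₂ - t₀)) := by
      intro t ht
      have nt : t - t₁ ≠ 0 := sub_ne_zero.2 ht
      rw [hba, ha]
      have e1 : 1 / (t - t₁) - 1 - (1 / (t₀ - t₁) - 1) = (t₀ - t) / ((t - t₁) * (t₀ - t₁)) := by
        field_simp
        ring
      rw [e1, div_div_div_eq, div_eq_div_iff (by positivity) (by positivity)]
      ring
    constructor
    · rintro ⟨r, ⟨t, ⟨ht, htT⟩, rfl⟩, rfl⟩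
      exact ⟨t, htT, ht, e t ht⟩
    · rintro ⟨t, htT, ht, rfl⟩
      exact ⟨_, ⟨t, ⟨ht, htT⟩, rfl⟩, (e t ht).symm⟩
  have hmem : (1 + a) / (b - a) ∈ Subfield.closure (crs S a b) := by
    rw [hcrs]
    set k := Subfield.closure
      {x | ∃ t ∈ T, t ≠ t₁ ∧ x = ((t - t₀) * (t₂ - t₁)) / ((t - t₁) * (t₂ - t₀))} with hk
    have e : (1 + a) / (b - a) = 1 / ((t₂ - t₀) / (t₁ - t₀)) - 1 := by
      rw [hba, ha]
      field_simp
      ring
    rw [e]
    exact sub_mem (div_mem (one_mem _) hρ) (one_mem _)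
  obtain ⟨κ, hκ, C, hC⟩ := (Pool.Agent.Run7.h84.US.field_iff S a b haS hbS hab).2 hmem
  refine ⟨max κ 1, max C 1, le_max_right _ _, max_lt hκ (by norm_num), le_max_right _ _, ?_⟩
  intro A
  obtain ⟨A', hA1, hA2⟩ := change T m₁ A
  rcases A.eq_empty_or_nonempty with rfl | hA
  · rw [image_empty, card_empty, Nat.cast_zero]
    positivity
  have h1 := hC A'
  rw [hA1] at h1
  have hbg : (1 : ℝ) ≤ bg S A' := by
    have h2 : 0 < (pr (-1) A').card := by
      rw [hA1]
      exact (hA.image _).card_pos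
    have h3 : A'.Nonempty := by
      by_contra h
      rw [not_nonempty_iff_eq_empty] at h
      subst h
      exact absurd h2 (by simp [pr])
    have h4 : 1 ≤ (prInf A').card := (h3.image _).card_pos
    exact_mod_cast h4.trans (le_max_left _ _)
  calc ((A.image Prod.snd).card : ℝ) ≤ C * (bg S A' : ℝ) ^ κ := h1
    _ ≤ max C 1 * (bg S A' : ℝ) ^ κ :=
        mul_le_mul_of_nonneg_right (le_max_left _ _) (Real.rpow_nonneg (by linarith) _)
    _ ≤ max C 1 * (bg S A' : ℝ) ^ (max κ 1) :=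
        mul_le_mul_of_nonneg_left (Real.rpow_le_rpow_of_exponent_le hbg (le_max_left _ _))
          (by positivity)
    _ ≤ _ := by
        refine mul_le_mul_of_nonneg_left ?_ (by positivity)
        refine Real.rpow_le_rpow (by linarith) ?_ (by positivity)
        exact_mod_cast hA2

end Run7.h912.PA
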