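import Pool.Agent.Run7.h912.PA.DiscAll
import Pool.Agent.Run7.h912.PA.Main

set_option autoImplicit false

/-! # All scales, arbitrary sets of differences, packing dimension -/

open Finset Filter Topology MeasureTheory
open Pool.Agent.Run7.h70.IHP

namespace Run7.h912.PA

theorem bounded_of_coord {n : ℕ} {R : Set (E n)} (hR : ∀ r ∈ R, ∀ i, |r i| ≤ 1) :
    Bornology.IsBounded R :=
  isBounded_iff_forall_norm_le.2 ⟨(n + 1) * 1, fun r hr => norm_le_of_coord r zero_le_one (hR r hr)⟩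

theorem all_scales {K : Set ℝ} (F : Frame K) (T' : Finset ℝ) (hT' : ∀ t ∈ T', t ∈ K) {s₁ : ℝ}
    (hs₁ : s₁ ∈ T') {κ C : ℝ} (hκ : 1 ≤ κ) (hC : 1 ≤ C)
    (hbound : ∀ A : Finset (ℝ × ℝ), ((A.image Prod.snd).card : ℝ) ≤
      C * ((T'.sup fun t => (A.image fun p => p.1 + t * p.2).card : ℕ) : ℝ) ^ κ)
    (T : Set ℝ) {α β : ℝ} (hα : α ≠ 0) (hTT : ∀ t' ∈ T', β + α * t' ∈ T) (n : ℕ) (M : ℝ) :
    ∃ C' : ℝ, 0 < C' ∧ ∀ R B : Set (E n), (∀ r ∈ R, ∀ i, |r i| ≤ 1) → (∀ x ∈ B, ‖x‖ ≤ M) →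
      HasPattern T R B → ∀ δ : ℝ, 0 < δ → δ ≤ 1 →
      (coverNum R δ : ℝ) ≤ C' * (coverNum B δ : ℝ) ^ κ := by
  classical
  have hκ0 : 0 < κ := by linarith
  have hα' : 0 < |α| := abs_pos.2 hα
  obtain ⟨Q₁, Q₂, hQ₁, hQ₂, hdisc⟩ := disc_all F T' hT' hs₁ n (|α|⁻¹ * |M|)
  set μ : ℝ := |α| / 2 ^ F.D with hμ
  have hμ0 : 0 < μ := by positivity
  set g : ℕ := (2 * (⌈((n : ℝ) + 1) / μ⌉₊ + 1) + 1) ^ n with hg
  have hg1 : 1 ≤ g := Nat.one_le_pow _ _ (by omega)
  have hgr : (0 : ℝ) < g := by exact_mod_cast hg1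
  refine ⟨Q₁ * C * (Q₂ * g) ^ κ, by positivity, ?_⟩
  intro R B hR hBM hP δ hδ hδ1
  have hB : Bornology.IsBounded B := isBounded_iff_forall_norm_le.2 ⟨M, hBM⟩
  set B' : Set (E n) := (fun x => α⁻¹ • x) '' B with hB'def
  have hB'M : ∀ x ∈ B', ‖x‖ ≤ |α|⁻¹ * |M| := by
    rintro _ ⟨x, hx, rfl⟩
    simp only
    rw [norm_smul, norm_inv, Real.norm_eq_abs]
    exact mul_le_mul_of_nonneg_left ((hBM x hx).trans (le_abs_self M)) (by positivity)
  have hP' : HasPattern (T' : Set ℝ) R B' := by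
    intro r hr
    obtain ⟨a, ha⟩ := hP r hr
    refine ⟨α⁻¹ • (a + β • r), fun t' ht' => ⟨a + (β + α * t') • r, ha _ (hTT t' ht'), ?_⟩⟩
    simp only
    rw [smul_add, smul_add, smul_smul, smul_smul, add_assoc, ← add_smul]
    congr 2
    field_simp
  obtain ⟨L, hL1, hL2, hL3⟩ := exists_scale F.hD hδ hδ1
  have hL0 : (0 : ℝ) < L := by exact_mod_cast hL1
  obtain ⟨A, hA1, hA2⟩ := hdisc R B' hR hB'M hP' L hL1
  set N : ℕ := coverNum B δ with hN
  have h1 : coverNum B' (1 / (L : ℝ) ^ F.D) ≤ N * g := by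
    refine (cov_smul hB hα (by positivity)).trans ?_
    refine (cov_anti hB (δ := μ * δ) (by positivity) ?_).trans (cov_scale hB hμ0 hδ)
    rw [hμ]
    calc |α| / 2 ^ F.D * δ = |α| * (δ / 2 ^ F.D) := by ring
      _ ≤ |α| * (1 / (L : ℝ) ^ F.D) := mul_le_mul_of_nonneg_left hL3 hα'.le
  have hsup : ((T'.sup fun t => (A.image fun p => p.1 + t * p.2).card : ℕ) : ℝ) ≤
      Q₂ * g * N := by
    have h6 : (T'.sup fun t => (A.image fun p => p.1 + t * p.2).card) ≤ ⌊Q₂ * g * N⌋₊ := by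
      refine Finset.sup_le fun t ht => Nat.le_floor ((hA2 t ht).trans ?_)
      have h7 : (coverNum B' (1 / (L : ℝ) ^ F.D) : ℝ) ≤ N * g := by exact_mod_cast h1
      calc Q₂ * (coverNum B' (1 / (L : ℝ) ^ F.D) : ℝ) ≤ Q₂ * (N * g) :=
            mul_le_mul_of_nonneg_left h7 hQ₂.le
        _ = _ := by ring
    exact (Nat.cast_le.2 h6).trans (Nat.floor_le (by positivity))
  have h2 : coverNum R δ ≤ coverNum R (1 / (L : ℝ) ^ F.D) :=
    cov_anti (bounded_of_coord hR) (by positivity) hL2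
  calc (coverNum R δ : ℝ) ≤ coverNum R (1 / (L : ℝ) ^ F.D) := by exact_mod_cast h2
    _ ≤ Q₁ * (A.image Prod.snd).card := hA1
    _ ≤ Q₁ * (C * (Q₂ * g * N) ^ κ) := by
        refine mul_le_mul_of_nonneg_left ((hbound A).trans ?_) hQ₁.le
        exact mul_le_mul_of_nonneg_left (Real.rpow_le_rpow (Nat.cast_nonneg _) hsup hκ0.le)
          (by linarith)
    _ = _ := by
        rw [Real.mul_rpow (by positivity) (Nat.cast_nonneg _)]
        ring

/-- the property of the previous theorem -/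
def AllScales (T : Set ℝ) (n : ℕ) (κ : ℝ) : Prop :=
  ∀ M : ℝ, ∃ C' : ℝ, 0 < C' ∧ ∀ R B : Set (E n), (∀ r ∈ R, ∀ i, |r i| ≤ 1) →
    (∀ x ∈ B, ‖x‖ ≤ M) → HasPattern T R B → ∀ δ : ℝ, 0 < δ → δ ≤ 1 →
    (coverNum R δ : ℝ) ≤ C' * (coverNum B δ : ℝ) ^ κ

theorem null_all {n : ℕ} {T : Finset ℝ} {κ : ℝ} (hκ : 1 ≤ κ) (hall : AllScales (T : Set ℝ) n κ)
    {y : ℝ} (hy : y < n / κ) (U : T → Set (E n)) (hU : ∀ t, Bornology.IsBounded (U t))
    (hU' : ∀ t, upperMinkowski (U t) < (y : EReal)) :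
    volume {r : E n | r ∈ cube n ∧ ∃ a, ∀ t : T, a + (t : ℝ) • r ∈ U t} = 0 := by
  classical
  have hκ0 : 0 < κ := by linarith
  set R : Set (E n) := {r : E n | r ∈ cube n ∧ ∃ a, ∀ t : T, a + (t : ℝ) • r ∈ U t} with hR
  set B : Set (E n) := ⋃ t, U t with hB
  have hBb : Bornology.IsBounded B := (Bornology.isBounded_iUnion).2 hU
  obtain ⟨M, hM⟩ := hBb.exists_norm_le
  obtain ⟨C', hC', hsc⟩ := hall M
  have hR1 : ∀ r ∈ R, ∀ i, |r i| ≤ 1 := by
    intro r hr i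
    have h1 := hr.1 i
    rw [Set.mem_Icc] at h1
    rw [abs_of_nonneg h1.1]
    exact h1.2
  have hpat : HasPattern (T : Set ℝ) R B := by
    rintro r ⟨_, a, ha⟩
    exact ⟨a, fun t ht => Set.mem_iUnion.2 ⟨⟨t, ht⟩, ha ⟨t, ht⟩⟩⟩
  have hRb := bounded_of_coord hR1
  have hcov : ∀ W : Set (E n), upperMinkowski W < (y : EReal) →
      ∀ᶠ δ : ℝ in 𝓝[>] (0 : ℝ), (coverNum W δ : ℝ) ≤ δ ^ (-y) := by
    intro W hW
    have h3 : ∀ᶠ δ : ℝ in 𝓝[>] (0 : ℝ),
        ((Real.log (coverNum W δ) / Real.log (1 / δ) : ℝ) : EReal) < y :=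
      eventually_lt_of_limsup_lt hW (by isBoundedDefault)
    filter_upwards [eventually_small, h3] with δ h1 h2
    have hL := log_inv_pos h1.1 h1.2
    have h2' : Real.log (coverNum W δ) / Real.log (1 / δ) < y := by exact_mod_cast h2
    rw [div_lt_iff₀ hL] at h2'
    rcases Nat.eq_zero_or_pos (coverNum W δ) with h5 | h5
    · rw [h5, Nat.cast_zero]
      exact (Real.rpow_pos_of_pos h1.1 _).le
    · have h6 : (0 : ℝ) < coverNum W δ := by exact_mod_cast h5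
      rw [← Real.log_le_log_iff h6 (Real.rpow_pos_of_pos h1.1 _), Real.log_rpow h1.1]
      rw [one_div, Real.log_inv] at h2'
      linarith
  set c : ENNReal := volume (Metric.ball (0 : E n) 1) with hc
  have hc1 : c ≠ ⊤ := measure_ball_lt_top.ne
  set τ : ℝ := (Fintype.card T : ℝ) with hτ
  have hτ0 : 0 ≤ τ := Nat.cast_nonneg _
  have hmain : ∀ᶠ δ : ℝ in 𝓝[>] (0 : ℝ),
      volume R ≤ ENNReal.ofReal (C' * τ ^ κ * δ ^ (n - κ * y)) * c := by
    filter_upwards [eventually_small, eventually_all.2 (fun t => hcov (U t) (hU' t))] with δ h1 h2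
    -- the covering number of the union
    have h3 : (coverNum B δ : ℝ) ≤ τ * δ ^ (-y) := by
      have hex := fun t => exists_cover (hU t) h1.1
      choose V hV1 hV2 using hex
      have h4 := coverNum_le_fintype (R := B) (δ := δ) (ι := Σ t : T, Fin (coverNum (U t) δ))
        (fun p => V p.1 p.2) (fun p => hV1 p.1 p.2) (by
          intro x hx
          obtain ⟨t, ht⟩ := Set.mem_iUnion.1 hx
          obtain ⟨i, hi⟩ := Set.mem_iUnion.1 (hV2 t ht)
          exact Set.mem_iUnion.2 ⟨⟨t, i⟩, hi⟩)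
      rw [Fintype.card_sigma] at h4
      simp only [Fintype.card_fin] at h4
      calc (coverNum B δ : ℝ) ≤ ∑ t : T, (coverNum (U t) δ : ℝ) := by exact_mod_cast h4
        _ ≤ ∑ _t : T, δ ^ (-y) := sum_le_sum fun t _ => h2 t
        _ = τ * δ ^ (-y) := by rw [sum_const, card_univ, nsmul_eq_mul, hτ]
    have h5 := hsc R B hR1 hM hpat δ h1.1 h1.2.le
    have h6 : (coverNum R δ : ℝ) ≤ C' * τ ^ κ * δ ^ (-(κ * y)) := by
      refine h5.trans ?_
      have h7 : (coverNum B δ : ℝ) ^ κ ≤ (τ * δ ^ (-y)) ^ κ :=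
        Real.rpow_le_rpow (Nat.cast_nonneg _) h3 hκ0.le
      have h8 : (τ * δ ^ (-y)) ^ κ = τ ^ κ * δ ^ (-(κ * y)) := by
        rw [Real.mul_rpow hτ0 (Real.rpow_nonneg h1.1.le _), ← Real.rpow_mul h1.1.le]
        congr 2
        ring
      calc C' * (coverNum B δ : ℝ) ^ κ ≤ C' * (τ ^ κ * δ ^ (-(κ * y))) := by
            rw [← h8]
            exact mul_le_mul_of_nonneg_left h7 hC'.le
        _ = _ := by ring
    obtain ⟨W, hW1, hW2⟩ := exists_cover hRb h1.1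
    have hball : ∀ k, volume (W k) ≤ ENNReal.ofReal (δ ^ n) * c := by
      intro k
      rcases (W k).eq_empty_or_nonempty with h0 | ⟨x, hx⟩
      · rw [h0, measure_empty]
        exact zero_le
      · have hsub : W k ⊆ Metric.closedBall x δ := fun z hz => hW1 k z hz x hx
        refine (measure_mono hsub).trans (le_of_eq ?_)
        rw [Measure.addHaar_closedBall _ _ h1.1.le, finrank_euclideanSpace_fin]
    calc volume R ≤ volume (⋃ k, W k) := measure_mono hW2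
      _ ≤ ∑ k, volume (W k) := measure_iUnion_fintype_le _ _
      _ ≤ ∑ _k : Fin (coverNum R δ), ENNReal.ofReal (δ ^ n) * c := sum_le_sum fun k _ => hball k
      _ = ENNReal.ofReal ((coverNum R δ : ℝ) * δ ^ n) * c := by
          rw [sum_const, card_univ, Fintype.card_fin, nsmul_eq_mul, ← mul_assoc,
            ENNReal.ofReal_mul (by positivity), ENNReal.ofReal_natCast]
      _ ≤ ENNReal.ofReal (C' * τ ^ κ * δ ^ (n - κ * y)) * c := by
          refine mul_le_mul_left (ENNReal.ofReal_le_ofReal ?_) _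
          have e : C' * τ ^ κ * δ ^ ((n : ℝ) - κ * y) = C' * τ ^ κ * δ ^ (-(κ * y)) * δ ^ n := by
            rw [mul_assoc (C' * τ ^ κ), ← Real.rpow_natCast δ n, ← Real.rpow_add h1.1]
            congr 2
            ring
          rw [e]
          exact mul_le_mul_of_nonneg_right h6 (by have := h1.1; positivity)
  have hlim : Tendsto (fun δ : ℝ => ENNReal.ofReal (C' * τ ^ κ * δ ^ (n - κ * y)) * c)
      (𝓝[>] (0 : ℝ)) (𝓝 0) := by
    have hpos : 0 < (n : ℝ) - κ * y := by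
      rw [lt_div_iff₀ hκ0] at hy
      linarith
    have l1 : Tendsto (fun δ : ℝ => δ ^ ((n : ℝ) - κ * y)) (𝓝[>] (0 : ℝ)) (𝓝 0) := by
      have := (Real.continuousAt_rpow_const 0 ((n : ℝ) - κ * y) (Or.inr hpos.le)).tendsto
      rw [Real.zero_rpow hpos.ne'] at this
      exact this.mono_left nhdsWithin_le_nhds
    have l2 := l1.const_mul (C' * τ ^ κ)
    rw [mul_zero] at l2
    have l3 := (ENNReal.tendsto_ofReal l2)
    rw [ENNReal.ofReal_zero] at l3
    have l4 := ENNReal.Tendsto.mul_const (b := c) l3 (Or.inr hc1)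
    rwa [zero_mul] at l4
  exact le_antisymm (ge_of_tendsto hlim hmain) zero_le

/-- **the packing dimension** -/
theorem lower_all {n : ℕ} {T : Finset ℝ} {κ : ℝ} (hκ : 1 ≤ κ) (hall : AllScales (T : Set ℝ) n κ)
    {B : Set (E n)} (h : HasPattern (T : Set ℝ) (cube n) B) :
    ((n / κ : ℝ) : EReal) ≤ packingDim B := by
  classical
  refine le_sInf ?_
  rintro d ⟨U, hU1, hU2, hU3⟩
  by_contra hcon
  push Not at hcon
  obtain ⟨y, hy1, hy2⟩ := EReal.lt_iff_exists_real_btwn.mp hcon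
  have hy : y < (n : ℝ) / κ := by exact_mod_cast hy2
  have hsub : cube n ⊆ ⋃ ι : T → ℕ,
      {r : E n | r ∈ cube n ∧ ∃ a, ∀ t : T, a + (t : ℝ) • r ∈ U (ι t)} := by
    intro r hr
    obtain ⟨a, ha⟩ := h r hr
    have hex : ∀ t : T, ∃ i : ℕ, a + (t : ℝ) • r ∈ U i := fun t =>
      Set.mem_iUnion.1 (hU2 (ha t t.2))
    choose ι hι using hex
    exact Set.mem_iUnion.2 ⟨ι, hr, a, hι⟩
  have hnull : volume (⋃ ι : T → ℕ,
      {r : E n | r ∈ cube n ∧ ∃ a, ∀ t : T, a + (t : ℝ) • r ∈ U (ι t)}) = 0 := by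
    refine measure_iUnion_null fun ι => ?_
    exact null_all hκ hall hy (fun t => U (ι t)) (fun t => hU1 _) (fun t => (hU3 _).trans_lt hy1)
  have hcube : volume (cube n) = 0 := measure_mono_null hsub hnull
  have hball : Metric.ball (WithLp.toLp 2 (fun _ => (1 / 2 : ℝ)) : E n) (1 / 2) ⊆ cube n := by
    intro r hr i
    rw [Metric.mem_ball, dist_eq_norm] at hr
    have h1 := PiLp.norm_apply_le (r - (WithLp.toLp 2 (fun _ => (1 / 2 : ℝ)) : E n)) i
    rw [PiLp.sub_apply, Real.norm_eq_abs] at h1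
    have h2 := abs_le.mp (h1.trans hr.le)
    simp only at h2
    constructor <;> linarith [h2.1, h2.2]
  have hpos : 0 < volume (Metric.ball (WithLp.toLp 2 (fun _ => (1 / 2 : ℝ)) : E n) (1 / 2)) :=
    Metric.measure_ball_pos volume _ (by norm_num)
  have := measure_mono_null hball hcube
  exact hpos.ne' this

theorem lower_fP {n : ℕ} {T : Finset ℝ} {κ : ℝ} (hκ : 1 ≤ κ) (hall : AllScales (T : Set ℝ) n κ) :
    ((n / κ : ℝ) : EReal) ≤ fP (T : Set ℝ) n :=
  le_iInf fun _ => le_iInf fun _ => le_iInf fun h => lower_all hκ hall h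

end Run7.h912.PA
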