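import Pool.Agent.Run7.h912.PA.Tools

set_option autoImplicit false

/-! # Covering numbers and boxes -/

open Finset
open Pool.Agent.Run7.h70.IHP

namespace Run7.h912.PA

theorem norm_le_of_coord {n : ℕ} (z : E n) {s : ℝ} (hs : 0 ≤ s) (h : ∀ i, |z i| ≤ s) :
    ‖z‖ ≤ (n + 1) * s := by
  rw [EuclideanSpace.norm_eq, Real.sqrt_le_iff]
  refine ⟨by positivity, ?_⟩
  calc ∑ i, ‖z i‖ ^ 2 ≤ ∑ _i : Fin n, s ^ 2 := by
        refine sum_le_sum fun i _ => ?_
        rw [Real.norm_eq_abs]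
        exact pow_le_pow_left₀ (abs_nonneg _) (h i) 2
    _ = n * s ^ 2 := by rw [sum_const, card_univ, Fintype.card_fin, nsmul_eq_mul]
    _ ≤ ((n + 1) * s) ^ 2 := by
        have h1 : (0 : ℝ) ≤ n := Nat.cast_nonneg n
        have h2 : 0 ≤ s ^ 2 := sq_nonneg s
        nlinarith [mul_nonneg h1 h2, mul_nonneg (mul_nonneg h1 h1) h2]

theorem coverNum_le_fintype {n : ℕ} {ι : Type*} [Fintype ι] {R : Set (E n)} {δ : ℝ}
    (U : ι → Set (E n)) (h1 : ∀ i, ∀ x ∈ U i, ∀ y ∈ U i, dist x y ≤ δ) (h2 : R ⊆ ⋃ i, U i) :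
    coverNum R δ ≤ Fintype.card ι := by
  refine Nat.sInf_le ⟨fun k => U ((Fintype.equivFin ι).symm k), fun k => h1 _, ?_⟩
  intro x hx
  obtain ⟨i, hi⟩ := Set.mem_iUnion.1 (h2 hx)
  refine Set.mem_iUnion.2 ⟨Fintype.equivFin ι i, ?_⟩
  rwa [Equiv.symm_apply_apply]

/-- sets in few boxes -/
theorem cov_boxes {n : ℕ} {ι : Type*} [Fintype ι] {R : Set (E n)} (x : ι → E n) {h δ : ℝ}
    (hδ : 0 < δ) (hR : ∀ r ∈ R, ∃ j, ∀ i, |r i - x j i| ≤ h) :
    coverNum R δ ≤ Fintype.card ι * (2 * (⌈h * (n + 1) / δ⌉₊ + 1) + 1) ^ n := by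
  classical
  set G : ℕ := ⌈h * (n + 1) / δ⌉₊ + 1 with hG
  have hn1 : (0 : ℝ) < (n : ℝ) + 1 := by positivity
  set δ' : ℝ := δ / (n + 1) with hδ'
  have hδ'0 : 0 < δ' := by positivity
  set U : ι × (Fin n → Fin (2 * G + 1)) → Set (E n) := fun p =>
    {r | ∀ i, ⌊(r i - x p.1 i) / δ'⌋ = ((p.2 i : ℕ) : ℤ) - G} with hU
  have h1 := coverNum_le_fintype (R := R) (δ := δ) U ?_ ?_
  · refine h1.trans (le_of_eq ?_)
    rw [Fintype.card_prod, Fintype.card_fun, Fintype.card_fin, Fintype.card_fin]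
  · rintro p r hr r' hr'
    rw [dist_eq_norm]
    have h2 : ∀ i, |(r - r') i| ≤ δ' := by
      intro i
      have e1 := hr i
      have e2 := hr' i
      have e3 := Int.abs_sub_lt_one_of_floor_eq_floor (e1.trans e2.symm)
      rw [← sub_div, abs_div, abs_of_pos hδ'0, div_lt_one hδ'0, sub_sub_sub_cancel_right] at e3
      rw [PiLp.sub_apply]
      exact e3.le
    refine (norm_le_of_coord _ hδ'0.le h2).trans (le_of_eq ?_)
    rw [hδ']
    field_simp
  · intro r hr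
    obtain ⟨j, hj⟩ := hR r hr
    have hbd : ∀ i, -(G : ℤ) ≤ ⌊(r i - x j i) / δ'⌋ ∧ ⌊(r i - x j i) / δ'⌋ ≤ G := by
      intro i
      have e1 := abs_le.1 (hj i)
      have e2 : h / δ' = h * (n + 1) / δ := by
        rw [hδ']
        field_simp
      have e3 : (h * (n + 1) / δ) + 1 ≤ (G : ℝ) := by
        rw [hG]
        push_cast
        have := Nat.le_ceil (h * (n + 1) / δ)
        linarith
      have e4 : (r i - x j i) / δ' ≤ h / δ' := div_le_div_of_nonneg_right e1.2 hδ'0.le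
      have e5 : -(h / δ') ≤ (r i - x j i) / δ' := by
        rw [← neg_div]
        exact div_le_div_of_nonneg_right e1.1 hδ'0.le
      constructor
      · refine Int.le_floor.mpr ?_
        push_cast
        linarith
      · have e6 := Int.floor_le ((r i - x j i) / δ')
        have e7 : (⌊(r i - x j i) / δ'⌋ : ℝ) ≤ (G : ℝ) := by linarith
        exact_mod_cast e7
    refine Set.mem_iUnion.2 ⟨(j, fun i => ⟨(⌊(r i - x j i) / δ'⌋ + G).toNat, ?_⟩), ?_⟩
    · have := hbd i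
      omega
    · intro i
      simp only
      have := hbd i
      rw [Int.toNat_of_nonneg (by omega)]
      ring

/-- change of scale -/
theorem cov_scale {n : ℕ} {B : Set (E n)} (hB : Bornology.IsBounded B) {μ δ : ℝ} (hμ : 0 < μ)
    (hδ : 0 < δ) :
    coverNum B (μ * δ) ≤ coverNum B δ * (2 * (⌈(n + 1) / μ⌉₊ + 1) + 1) ^ n := by
  classical
  obtain ⟨U, h1, h2⟩ := exists_cover hB hδ
  have hex : ∀ k, ∃ x : E n, ∀ r ∈ U k, dist r x ≤ δ := by
    intro k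
    rcases (U k).eq_empty_or_nonempty with h | ⟨x, hx⟩
    · exact ⟨0, fun r hr => by rw [h] at hr; exact absurd hr (Set.notMem_empty r)⟩
    · exact ⟨x, fun r hr => h1 k r hr x hx⟩
  choose x hx using hex
  have h3 := cov_boxes (R := B) x (h := δ) (δ := μ * δ) (by positivity) (by
    intro r hr
    obtain ⟨k, hk⟩ := Set.mem_iUnion.1 (h2 hr)
    refine ⟨k, fun i => ?_⟩
    have h4 := hx k r hk
    rw [dist_eq_norm] at h4
    have h5 := PiLp.norm_apply_le (r - x k) i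
    rw [PiLp.sub_apply, Real.norm_eq_abs] at h5
    exact h5.trans h4)
  rw [Fintype.card_fin] at h3
  have e : δ * (n + 1) / (μ * δ) = (n + 1) / μ := by field_simp
  rwa [e] at h3

theorem cov_anti {n : ℕ} {B : Set (E n)} (hB : Bornology.IsBounded B) {δ δ' : ℝ} (hδ : 0 < δ)
    (h : δ ≤ δ') : coverNum B δ' ≤ coverNum B δ := by
  obtain ⟨U, h1, h2⟩ := exists_cover hB hδ
  exact Nat.sInf_le ⟨U, fun i x hx y hy => (h1 i x hx y hy).trans h, h2⟩

/-- a suitable scale -/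
theorem exists_scale {D : ℕ} (hD : 1 ≤ D) {δ : ℝ} (hδ : 0 < δ) (hδ1 : δ ≤ 1) :
    ∃ L : ℕ, 1 ≤ L ∧ 1 / (L : ℝ) ^ D ≤ δ ∧ δ / 2 ^ D ≤ 1 / (L : ℝ) ^ D := by
  classical
  have hex : ∃ L : ℕ, 1 ≤ L ∧ 1 / (L : ℝ) ^ D ≤ δ := by
    obtain ⟨L, hL⟩ := exists_nat_gt (1 / δ)
    have h1 : 1 ≤ 1 / δ := by rw [le_div_iff₀ hδ]; linarith
    have hL1 : (1 : ℝ) < L := by linarith
    refine ⟨L, by exact_mod_cast hL1.le, ?_⟩
    rw [div_le_iff₀ (by positivity)]
    have h2 : (L : ℝ) ≤ (L : ℝ) ^ D := le_self_pow₀ hL1.le (by omega)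
    rw [div_lt_iff₀ hδ] at hL
    nlinarith
  set L := Nat.find hex with hLdef
  have hL : 1 ≤ L ∧ 1 / (L : ℝ) ^ D ≤ δ := Nat.find_spec hex
  refine ⟨L, hL.1, hL.2, ?_⟩
  have hL1 : (1 : ℝ) ≤ L := by exact_mod_cast hL.1
  rcases Nat.lt_or_ge 1 L with h | h
  · have h1 := Nat.find_min hex (m := L - 1) (by omega)
    have h2 : ¬ 1 / ((L - 1 : ℕ) : ℝ) ^ D ≤ δ := fun h3 => h1 ⟨by omega, h3⟩
    rw [not_le] at h2
    have h3 : (L : ℝ) ≤ 2 * ((L - 1 : ℕ) : ℝ) := by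
      have : L ≤ 2 * (L - 1) := by omega
      exact_mod_cast this
    have h4 : (0 : ℝ) < ((L - 1 : ℕ) : ℝ) := by
      have : 0 < L - 1 := by omega
      exact_mod_cast this
    have h5 : (L : ℝ) ^ D ≤ 2 ^ D * ((L - 1 : ℕ) : ℝ) ^ D := by
      rw [← mul_pow]
      exact pow_le_pow_left₀ (by linarith) h3 D
    rw [lt_div_iff₀ (by positivity)] at h2
    rw [div_le_div_iff₀ (by positivity) (by positivity)]
    have h6 : (0 : ℝ) < 2 ^ D := by positivity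
    calc δ * (L : ℝ) ^ D ≤ δ * (2 ^ D * ((L - 1 : ℕ) : ℝ) ^ D) :=
          mul_le_mul_of_nonneg_left h5 hδ.le
      _ = (δ * ((L - 1 : ℕ) : ℝ) ^ D) * 2 ^ D := by ring
      _ ≤ 1 * 2 ^ D := mul_le_mul_of_nonneg_right h2.le h6.le
  · have h1 : L = 1 := by omega
    rw [h1, Nat.cast_one, one_pow, div_one, div_le_one (by positivity)]
    exact hδ1.trans (one_le_pow₀ (by norm_num))

end Run7.h912.PA
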