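import Pool.Agent.Run7.h70.IHP.Heights

set_option autoImplicit false

/-! # Integers of bounded height in a real number field are nets -/

open Finset
open Pool.Agent.Run7.h70.IHP

namespace Run7.h912.PA

variable {K : Set ℝ}

/-- the values of the form at height `X` -/
def G1 (F : Frame K) (X : ℕ) : Set ℝ :=
  {x | ∃ a : Fin F.D → ℤ, (∀ i, |a i| ≤ (X : ℤ)) ∧ x = ell F.ω a}

theorem G1_finite (F : Frame K) (X : ℕ) : (G1 F X).Finite := by
  classical
  refine Set.Finite.subset (Finset.finite_toSet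
    ((Fintype.piFinset (fun _ : Fin F.D => Finset.Icc (-(X : ℤ)) X)).image (ell F.ω))) ?_
  rintro x ⟨a, ha, rfl⟩
  rw [Finset.mem_coe, Finset.mem_image]
  refine ⟨a, ?_, rfl⟩
  rw [Fintype.mem_piFinset]
  exact fun i => Finset.mem_Icc.mpr (abs_le.mp (ha i))

theorem G1_zero (F : Frame K) (X : ℕ) : (0 : ℝ) ∈ G1 F X :=
  ⟨0, fun i => by simp, by simp [ell]⟩

theorem G1_mono (F : Frame K) {X Y : ℕ} (h : X ≤ Y) : G1 F X ⊆ G1 F Y := by
  rintro x ⟨a, ha, rfl⟩
  have : (X : ℤ) ≤ Y := by exact_mod_cast h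
  exact ⟨a, fun i => (ha i).trans this, rfl⟩

theorem G1_add_sub (F : Frame K) {X L : ℕ} {x g g' : ℝ} (hx : x ∈ G1 F X)
    (hg : g ∈ G1 F L) (hg' : g' ∈ G1 F L) : x + g - g' ∈ G1 F (X + 2 * L) := by
  obtain ⟨a, ha, rfl⟩ := hx
  obtain ⟨a₁, ha₁, rfl⟩ := hg
  obtain ⟨a₂, ha₂, rfl⟩ := hg'
  refine ⟨a + a₁ - a₂, fun i => ?_, ?_⟩
  · have h1 := abs_le.mp (ha i)
    have h2 := abs_le.mp (ha₁ i)
    have h3 := abs_le.mp (ha₂ i)
    simp only [Pi.add_apply, Pi.sub_apply]
    push_cast
    rw [abs_le]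
    constructor <;> linarith
  · rw [ell_sub, ell_add]

theorem sep1 (F : Frame K) {X : ℝ} (hX : 1 ≤ X) {a a' : Fin F.D → ℤ} (ha : ∀ i, |(a i : ℝ)| ≤ X)
    (ha' : ∀ i, |(a' i : ℝ)| ≤ X) (hne : ell F.ω a ≠ ell F.ω a') :
    1 ≤ F.C * (2 * X) ^ (F.D - 1) * |ell F.ω a - ell F.ω a'| := by
  have h := F.one (2 * X) (by linarith) (a - a') (fun i => by
    have h1 := abs_le.mp (ha i)
    have h2 := abs_le.mp (ha' i)
    rw [Pi.sub_apply]
    push_cast
    rw [abs_le]
    constructor <;> linarith) (by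
    rw [ell_sub]
    exact sub_ne_zero.2 hne)
  rwa [ell_sub] at h

/-- **The covering property.** -/
theorem cover1 (F : Frame K) :
    ∃ A : ℝ, 1 ≤ A ∧ ∀ L : ℕ, 1 ≤ L → ∀ z : ℝ, |z| ≤ L →
      ∃ m : Fin F.D → ℤ, (∀ i, |(m i : ℝ)| ≤ A * L) ∧
        |z - ell F.ω m| * (L : ℝ) ^ (F.D - 1) ≤ A := by
  classical
  have hC := F.hC
  set c : ℝ := 1 / (F.C * 2 ^ (F.D - 1)) with hcdef
  have hc : 0 < c := by positivity
  set M₀ : ℝ := 1 + F.C with hM₀
  have hM₀1 : 0 < M₀ := by positivity
  obtain ⟨J, hJ⟩ := exists_nat_gt (2 * M₀ / c + 5)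
  refine ⟨2 * J + 2 * J * c + 1, by
    have : (0 : ℝ) ≤ 2 * J + 2 * J * c := by positivity
    linarith, fun L hL1 => ?_⟩
  have hLr : (1 : ℝ) ≤ L := by exact_mod_cast hL1
  set P : ℝ := (L : ℝ) ^ (F.D - 1) with hP
  have hP0 : 0 < P := by positivity
  set η : ℝ := c / P with hη
  have hη0 : 0 < η := by positivity
  -- the distances
  have key : ∀ z : ℝ, |z| ≤ L → Metric.infDist z (G1 F (2 * L * J)) ≤ 2 * J * η := by
    intro z hz
    by_contra hcon
    push Not at hcon
    set X : ℕ → ℕ := fun j => 2 * L * (J - j) with hX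
    have hXle : ∀ j, X j ≤ 2 * L * J := fun j => Nat.mul_le_mul_left _ (Nat.sub_le _ _)
    have hex : ∀ j : ℕ, ∃ y : ℝ, j ≤ J →
        |y| ≤ L ∧ Metric.infDist y (G1 F (X j)) = 2 * ((J : ℝ) - j) * η := by
      intro j
      rcases lt_or_ge J j with h | h
      · exact ⟨0, fun h' => absurd h (by omega)⟩
      · have hcont : ContinuousOn (fun y => Metric.infDist y (G1 F (X j))) (Set.uIcc 0 z) :=
          (Metric.continuous_infDist_pt _).continuousOn
        have hiv := intermediate_value_uIcc hcont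
        have h0 : Metric.infDist 0 (G1 F (X j)) = 0 := Metric.infDist_zero_of_mem (G1_zero F _)
        have h1 : 2 * (J : ℝ) * η < Metric.infDist z (G1 F (X j)) :=
          hcon.trans_le (Metric.infDist_le_infDist_of_subset (G1_mono F (hXle j))
            ⟨0, G1_zero F _⟩)
        have hjr : (j : ℝ) ≤ J := by exact_mod_cast h
        have hjn : (0 : ℝ) ≤ j := Nat.cast_nonneg j
        have hmem : 2 * ((J : ℝ) - j) * η ∈ Set.uIcc (Metric.infDist 0 (G1 F (X j)))
            (Metric.infDist z (G1 F (X j))) := by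
          rw [h0]
          refine Set.mem_uIcc.mpr (Or.inl ⟨?_, ?_⟩)
          · have : 0 ≤ (J : ℝ) - j := by linarith
            positivity
          · have : (j : ℝ) * η ≥ 0 := by positivity
            nlinarith
        obtain ⟨y, hy, hy2⟩ := hiv hmem
        refine ⟨y, fun _ => ⟨?_, hy2⟩⟩
        refine le_trans ?_ hz
        rcases Set.mem_uIcc.mp hy with h2 | h2
        · rw [abs_of_nonneg h2.1]
          exact h2.2.trans (le_abs_self _)
        · rw [abs_of_nonpos h2.2]
          exact (neg_le_neg h2.1).trans (neg_le_abs _)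
    choose y hy using hex
    -- separation of the translates
    have hsep1 : ∀ i j : ℕ, i < j → j ≤ J → ∀ g ∈ G1 F L, ∀ g' ∈ G1 F L,
        η ≤ |(y j + g) - (y i + g')| := by
      intro i j hij hjJ g hg g' hg'
      by_contra hlt
      push Not at hlt
      obtain ⟨w, hw, hwd⟩ := (G1_finite F (X j)).isCompact.exists_infDist_eq_dist
        ⟨0, G1_zero F _⟩ (y j)
      rw [(hy j hjJ).2] at hwd
      have h1 : w + g - g' ∈ G1 F (X i) := by
        refine G1_mono F ?_ (G1_add_sub F hw hg hg')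
        simp only [hX]
        obtain ⟨k, hk⟩ : ∃ k, J - i = (J - j) + 1 + k := ⟨J - i - (J - j) - 1, by omega⟩
        rw [hk]
        nlinarith [Nat.zero_le (2 * L * k)]
      have h2 := Metric.infDist_le_dist_of_mem (x := y i) h1
      rw [(hy i (by omega)).2, Real.dist_eq] at h2
      rw [Real.dist_eq] at hwd
      have h3 : |y i - (w + g - g')| ≤ |(y j + g) - (y i + g')| + |y j - w| := by
        have e : y i - (w + g - g') = -((y j + g) - (y i + g')) + (y j - w) := by ring
        rw [e]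
        refine (abs_add_le _ _).trans ?_
        rw [abs_neg]
      have h4 : (i : ℝ) + 1 ≤ j := by exact_mod_cast hij
      nlinarith
    have hsep2 : ∀ a a' : Fin F.D → ℤ, (∀ i, |a i| ≤ (L : ℤ)) →
        (∀ i, |a' i| ≤ (L : ℤ)) → a ≠ a' → η ≤ |ell F.ω a - ell F.ω a'| := by
      intro a a' ha ha' hne
      have hne' : ell F.ω a ≠ ell F.ω a' := by
        intro h
        apply hne
        have h1 := F.indep (a - a') (by rw [ell_sub, h, sub_self])
        exact sub_eq_zero.1 h1
      have h1 := sep1 F hLr (a := a) (a' := a')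
        (fun i => by have := ha i; exact_mod_cast this)
        (fun i => by have := ha' i; exact_mod_cast this) hne'
      rw [hη, div_le_iff₀ hP0, hcdef, div_le_iff₀ (by positivity)]
      calc (1 : ℝ) ≤ F.C * (2 * L) ^ (F.D - 1) * |ell F.ω a - ell F.ω a'| := h1
        _ = _ := by rw [mul_pow, hP]; ring
    -- counting
    set Bx : Finset (Fin F.D → ℤ) :=
      Fintype.piFinset (fun _ : Fin F.D => Finset.Icc (-(L : ℤ)) L) with hBx
    have hBxm : ∀ v, v ∈ Bx ↔ ∀ i, |v i| ≤ (L : ℤ) := by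
      intro v
      rw [hBx, Fintype.mem_piFinset]
      exact forall_congr' fun i => by rw [Finset.mem_Icc, abs_le]
    have hBxc : Bx.card = (2 * L + 1) ^ F.D := by
      rw [hBx, Fintype.card_piFinset]
      simp only [Int.card_Icc, prod_const, card_univ, Fintype.card_fin]
      congr 1
      omega
    set Φ : ℕ × (Fin F.D → ℤ) → ℝ := fun p => y p.1 + ell F.ω p.2 with hΦ
    set S : Finset (ℕ × (Fin F.D → ℤ)) := range (J + 1) ×ˢ Bx with hS
    have hΦsep : ∀ p ∈ S, ∀ p' ∈ S, p ≠ p' → η ≤ |Φ p - Φ p'| := by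
      rintro ⟨j, a⟩ hp ⟨j', a'⟩ hp' hne
      rw [hS, mem_product, mem_range, hBxm] at hp hp'
      obtain ⟨hj, ha⟩ := hp
      obtain ⟨hj', ha'⟩ := hp'
      simp only at hj hj' ha ha'
      simp only [hΦ]
      have hg : ell F.ω a ∈ G1 F L := ⟨a, ha, rfl⟩
      have hg' : ell F.ω a' ∈ G1 F L := ⟨a', ha', rfl⟩
      rcases lt_trichotomy j j' with h | h | h
      · rw [abs_sub_comm]
        exact hsep1 j j' h (by omega) _ hg' _ hg
      · subst h
        have hne' : a ≠ a' := fun hh => hne (by rw [hh])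
        have := hsep2 a a' ha ha' hne'
        rwa [add_sub_add_left_eq_sub]
      · exact hsep1 j' j h (by omega) _ hg _ hg'
    have hΦbd : ∀ p ∈ S, |Φ p| ≤ M₀ * L := by
      rintro ⟨j, a⟩ hp
      rw [hS, mem_product, mem_range, hBxm] at hp
      obtain ⟨hj, ha⟩ := hp
      simp only at hj ha
      simp only [hΦ]
      have h1 := (hy j (by omega)).1
      have h2 := F.bd L a (fun i => by have := ha i; exact_mod_cast this)
      calc |y j + ell F.ω a| ≤ |y j| + |ell F.ω a| := abs_add_le _ _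
        _ ≤ L + F.C * L := by linarith
        _ = M₀ * L := by simp only [hM₀]; ring
    set R : ℤ := ⌈M₀ * L / η⌉ + 1 with hR
    have hR0 : (0 : ℤ) ≤ R := by
      have : (0 : ℤ) ≤ ⌈M₀ * L / η⌉ := Int.ceil_nonneg (by positivity)
      omega
    have hcardle : S.card ≤ (Finset.Icc (-R) R).card := by
      refine card_le_card_of_injOn (fun p => ⌊Φ p / η⌋) ?_ ?_
      · intro p hp
        have h1 := abs_le.mp (hΦbd p hp)
        have h2 : Φ p / η ≤ M₀ * L / η := div_le_div_of_nonneg_right h1.2 hη0.le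
        have h3 : -(M₀ * L / η) ≤ Φ p / η := by
          rw [← neg_div]
          exact div_le_div_of_nonneg_right h1.1 hη0.le
        have h4 := Int.le_ceil (M₀ * L / η)
        simp only [Finset.coe_Icc, Set.mem_Icc]
        constructor
        · refine Int.le_floor.mpr ?_
          rw [hR]
          push_cast
          linarith
        · have h5 : (⌊Φ p / η⌋ : ℝ) ≤ (R : ℝ) := by
            rw [hR]
            push_cast
            have := Int.floor_le (Φ p / η)
            linarith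
          exact_mod_cast h5
      · intro p hp p' hp' hpp
        by_contra hne
        have h1 := hΦsep p hp p' hp' hne
        simp only at hpp
        have h2 := Int.abs_sub_lt_one_of_floor_eq_floor hpp
        rw [← sub_div, abs_div, abs_of_pos hη0, div_lt_one hη0] at h2
        linarith
    have hScard : S.card = (J + 1) * (2 * L + 1) ^ F.D := by
      rw [hS, card_product, card_range, hBxc]
    have hIcc : ((Finset.Icc (-R) R).card : ℝ) = 2 * (R : ℝ) + 1 := by
      rw [Int.card_Icc]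
      have : ((R + 1 - -R).toNat : ℤ) = 2 * R + 1 := by
        rw [Int.toNat_of_nonneg (by omega)]; ring
      exact_mod_cast this
    have h1 : (S.card : ℝ) ≤ 2 * (R : ℝ) + 1 := by
      rw [← hIcc]
      exact_mod_cast hcardle
    have h2 : (R : ℝ) ≤ M₀ * L / η + 2 := by
      rw [hR]
      push_cast
      have := Int.ceil_lt_add_one (M₀ * L / η)
      linarith
    have hDpos := F.hD
    have h3 : M₀ * L / η = M₀ / c * (L : ℝ) ^ F.D := by
      rw [hη]
      have e : (L : ℝ) ^ F.D = L * P := by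
        rw [hP, ← pow_succ']
        congr 1
        omega
      rw [e]
      field_simp
    have h4 : (L : ℝ) ^ F.D ≤ (2 * (L : ℝ) + 1) ^ F.D :=
      pow_le_pow_left₀ (by positivity) (by linarith) _
    have h5 : (1 : ℝ) ≤ (L : ℝ) ^ F.D := one_le_pow₀ hLr
    have h6 : ((J : ℝ) + 1) * (L : ℝ) ^ F.D ≤ (S.card : ℝ) := by
      rw [hScard]
      push_cast
      exact mul_le_mul_of_nonneg_left h4 (by positivity)
    have h7 : ((J : ℝ) + 1) * (L : ℝ) ^ F.D ≤ (2 * M₀ / c + 5) * (L : ℝ) ^ F.D := by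
      calc ((J : ℝ) + 1) * (L : ℝ) ^ F.D ≤ 2 * (M₀ / c * (L : ℝ) ^ F.D + 2) + 1 := by
            rw [h3] at h2
            linarith
        _ ≤ (2 * M₀ / c + 5) * (L : ℝ) ^ F.D := by
            have : 2 * (M₀ / c * (L : ℝ) ^ F.D + 2) + 1 =
              2 * M₀ / c * (L : ℝ) ^ F.D + 5 := by ring
            rw [this, add_mul]
            linarith
    have h8 := le_of_mul_le_mul_right h7 (by linarith)
    linarith
  intro z hz
  obtain ⟨w, ⟨m, hm, rfl⟩, hwd⟩ :=
    (G1_finite F (2 * L * J)).isCompact.exists_infDist_eq_dist ⟨0, G1_zero F _⟩ z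
  have h1 := key z hz
  rw [hwd, Real.dist_eq] at h1
  refine ⟨m, fun i => ?_, ?_⟩
  · have h2 : |(m i : ℝ)| ≤ 2 * L * J := by
      have := hm i
      push_cast at this
      exact_mod_cast this
    have h3 : (0 : ℝ) ≤ (2 * J * c + 1) * L := by positivity
    nlinarith
  calc |z - ell F.ω m| * P ≤ (2 * J * η) * P :=
        mul_le_mul_of_nonneg_right h1 hP0.le
    _ = 2 * J * c := by rw [hη]; field_simp
    _ ≤ 2 * J + 2 * J * c + 1 := by
        have : (0 : ℝ) ≤ J := Nat.cast_nonneg J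
        linarith

end Run7.h912.PA
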