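import Pool.Agent.Run7.h912.PA.Tools

set_option autoImplicit false

/-! # From a set with a pattern to finite sets of numbers -/

open Finset
open Pool.Agent.Run7.h70.IHP

namespace Run7.h912.PA

/-- the common differences on a grid, approximated by integers of the field -/
theorem grid {K : Set ℝ} (F : Frame K) {A₀ : ℝ} (hA₀ : 1 ≤ A₀)
    (hcov : ∀ L : ℕ, 1 ≤ L → ∀ z : ℝ, |z| ≤ L →
      ∃ m : Fin F.D → ℤ, (∀ i, |(m i : ℝ)| ≤ A₀ * L) ∧
        |z - ell F.ω m| * (L : ℝ) ^ (F.D - 1) ≤ A₀) (L : ℕ) (hL : 4 * A₀ ≤ L) :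
    ∃ (J : ℕ) (u : ℕ → Fin F.D → ℤ), 1 ≤ J ∧ (1 / (8 * A₀)) * (L : ℝ) ^ F.D ≤ J ∧
      (∀ j, j < J → ∀ i, |(u j i : ℝ)| ≤ A₀ * L) ∧
      (∀ j, j < J → 0 ≤ ell F.ω (u j) ∧ ell F.ω (u j) ≤ L) ∧
      (∀ j, j < J → ∀ j', j' < J → ell F.ω (u j) = ell F.ω (u j') → j = j') := by
  have hLr : (1 : ℝ) ≤ L := by linarith
  have hL1 : 1 ≤ L := by exact_mod_cast hLr
  have hD := F.hD
  set P : ℝ := (L : ℝ) ^ (F.D - 1) with hP
  have hP0 : 0 < P := by positivity
  have hLP : (L : ℝ) ^ F.D = L * P := by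
    rw [hP, ← pow_succ']
    congr 1
    omega
  have hP1 : 1 ≤ P := one_le_pow₀ hLr
  set s : ℝ := 4 * A₀ / P with hs
  have hs0 : 0 < s := by positivity
  set x : ℝ := L / s with hx
  have hx' : x = L * P / (4 * A₀) := by rw [hx, hs]; field_simp
  have hx1 : 1 ≤ x := by
    rw [hx', le_div_iff₀ (by positivity)]
    nlinarith
  set J : ℕ := ⌊x⌋₊ with hJ
  have hJ1 : 1 ≤ J := Nat.le_floor (by exact_mod_cast hx1)
  have hJx : (J : ℝ) ≤ x := Nat.floor_le (by linarith)
  have hJx' : x < J + 1 := Nat.lt_floor_add_one x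
  have hJs : (J : ℝ) * s ≤ L := by
    calc (J : ℝ) * s ≤ x * s := mul_le_mul_of_nonneg_right hJx hs0.le
      _ = L := by rw [hx]; field_simp
  have hex : ∀ j : ℕ, ∃ m : Fin F.D → ℤ, j < J → (∀ i, |(m i : ℝ)| ≤ A₀ * L) ∧
      |((j : ℝ) + 1 / 2) * s - ell F.ω m| * P ≤ A₀ := by
    intro j
    rcases Nat.lt_or_ge j J with h | h
    · have hjr : (j : ℝ) + 1 ≤ J := by exact_mod_cast h
      have hj0 : (0 : ℝ) ≤ j := Nat.cast_nonneg j
      obtain ⟨m, h1, h2⟩ := hcov L hL1 (((j : ℝ) + 1 / 2) * s) (by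
        rw [abs_of_nonneg (by positivity)]
        nlinarith)
      exact ⟨m, fun _ => ⟨h1, h2⟩⟩
    · exact ⟨0, fun h' => absurd h (by omega)⟩
  choose u hu using hex
  have hnear : ∀ j, j < J → |((j : ℝ) + 1 / 2) * s - ell F.ω (u j)| ≤ s / 4 := by
    intro j hj
    have h1 := (hu j hj).2
    rw [← le_div_iff₀ hP0] at h1
    refine h1.trans (le_of_eq ?_)
    rw [hs]
    ring
  refine ⟨J, u, hJ1, ?_, fun j hj => (hu j hj).1, ?_, ?_⟩
  · rw [hLP]
    have h1 : (1 / (8 * A₀)) * (L * P) = x / 2 := by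
      rw [hx']
      field_simp
      ring
    rw [h1]
    have hJr : (1 : ℝ) ≤ J := by exact_mod_cast hJ1
    linarith
  · intro j hj
    have h1 := abs_le.1 (hnear j hj)
    have hjr : (j : ℝ) + 1 ≤ J := by exact_mod_cast hj
    have hj0 : (0 : ℝ) ≤ j := Nat.cast_nonneg j
    have h2 : (0 : ℝ) ≤ j * s := by positivity
    have h3 : ((j : ℝ) + 1) * s ≤ J * s := mul_le_mul_of_nonneg_right hjr hs0.le
    constructor
    · nlinarith [h1.2]
    · nlinarith [h1.1]
  · intro j hj j' hj' h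
    have h1 := abs_le.1 (hnear j hj)
    have h2 := abs_le.1 (hnear j' hj')
    rw [← h] at h2
    by_contra hne
    rcases Nat.lt_or_gt_of_ne hne with h3 | h3
    · have h4 : (j : ℝ) + 1 ≤ j' := by exact_mod_cast h3
      have h5 : ((j : ℝ) + 1) * s ≤ j' * s := mul_le_mul_of_nonneg_right h4 hs0.le
      nlinarith [h1.1, h1.2, h2.1, h2.2]
    · have h4 : (j' : ℝ) + 1 ≤ j := by exact_mod_cast h3
      have h5 : ((j' : ℝ) + 1) * s ≤ j * s := mul_le_mul_of_nonneg_right h4 hs0.le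
      nlinarith [h1.1, h1.2, h2.1, h2.2]

theorem disc {K : Set ℝ} (F : Frame K) (T : Finset ℝ) (hT : ∀ t ∈ T, t ∈ K) {t₁ : ℝ} (ht₁ : t₁ ∈ T)
    {n : ℕ} {B : Set (E n)} (hB : Bornology.IsBounded B)
    (hP : HasPattern (T : Set ℝ) (cube n) B) :
    ∃ c Q : ℝ, 0 < c ∧ 0 < Q ∧ ∃ L₀ : ℕ, 1 ≤ L₀ ∧ ∀ L : ℕ, L₀ ≤ L → ∃ A : Finset (ℝ × ℝ),
      (c * (L : ℝ) ^ F.D) ^ n ≤ (A.image Prod.snd).card ∧
      ∀ t ∈ T, ((A.image fun p => p.1 + t * p.2).card : ℝ) ≤
        Q * coverNum B (1 / (L : ℝ) ^ F.D) := by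
  classical
  obtain ⟨A₀, hA₀, hcov⟩ := cover1 F
  obtain ⟨Rb, hRb⟩ := hB.exists_norm_le
  obtain ⟨R₀, hR₀⟩ := exists_nat_gt (|Rb| + |t₁| + 1)
  have hR₀r : (1 : ℝ) ≤ R₀ := by
    have := abs_nonneg Rb
    have := abs_nonneg t₁
    linarith
  have hR₀1 : 1 ≤ R₀ := by exact_mod_cast hR₀r
  have hσ : ∀ t : ℝ, ∃ σ : ℝ, 0 < σ ∧ (t ∈ T → ∀ X : ℝ, 1 ≤ X → ∀ m u m' u' : Fin F.D → ℤ,
      (∀ i, |(m i : ℝ)| ≤ X) → (∀ i, |(u i : ℝ)| ≤ X) → (∀ i, |(m' i : ℝ)| ≤ X) →
      (∀ i, |(u' i : ℝ)| ≤ X) →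
      ell F.ω m + t * ell F.ω u ≠ ell F.ω m' + t * ell F.ω u' →
      σ ≤ X ^ (F.D - 1) * |(ell F.ω m + t * ell F.ω u) - (ell F.ω m' + t * ell F.ω u')|) := by
    intro t
    by_cases ht : t ∈ T
    · obtain ⟨σ, h1, h2⟩ := sep_t F (hT t ht)
      exact ⟨σ, h1, fun _ => h2⟩
    · exact ⟨1, one_pos, fun h => absurd h ht⟩
  choose σ hσ0 hσ using hσ
  set ξ : ℝ := (A₀ * R₀) ^ (F.D - 1) with hξ
  have hξ0 : 0 < ξ := by positivity
  set q : ℝ → ℕ := fun t => (2 * (⌈(1 + 2 * A₀) * ξ / σ t⌉₊ + 1) + 1) ^ n with hq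
  have hq1 : ∀ t, 1 ≤ q t := fun t => Nat.one_le_pow _ _ (by omega)
  refine ⟨1 / (8 * A₀), ∑ t ∈ T, (q t : ℝ), by positivity, ?_, ⌈4 * A₀⌉₊ + 1, by omega, ?_⟩
  · refine sum_pos (fun t _ => ?_) ⟨t₁, ht₁⟩
    exact_mod_cast hq1 t
  intro L hL
  have hL4 : 4 * A₀ ≤ L := by
    have h1 := Nat.le_ceil (4 * A₀)
    have h2 : (⌈4 * A₀⌉₊ : ℝ) + 1 ≤ L := by exact_mod_cast hL
    linarith
  have hLr : (1 : ℝ) ≤ L := by linarith
  have hL1 : 1 ≤ L := by exact_mod_cast hLr
  have hD := F.hD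
  set P : ℝ := (L : ℝ) ^ (F.D - 1) with hPdef
  have hP0 : 0 < P := by positivity
  have hLP : (L : ℝ) ^ F.D = L * P := by
    rw [hPdef, ← pow_succ']
    congr 1
    omega
  obtain ⟨J, u, hJ1, hJ, hu1, hu2, hu3⟩ := grid F hA₀ hcov L hL4
  have : Nonempty (Fin J) := ⟨⟨0, hJ1⟩⟩
  have hL0 : (0 : ℝ) < L := by linarith
  -- the differences
  set r : (Fin n → Fin J) → E n := fun κ => WithLp.toLp 2 (fun i => ell F.ω (u (κ i)) / L) with hr
  have hrc : ∀ κ, r κ ∈ cube n := by
    intro κ i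
    have h1 := hu2 (κ i) (κ i).2
    have h2 : r κ i = ell F.ω (u (κ i)) / L := rfl
    rw [h2, Set.mem_Icc]
    exact ⟨div_nonneg h1.1 hL0.le, (div_le_one hL0).2 h1.2⟩
  have hex := fun κ => hP (r κ) (hrc κ)
  choose a ha using hex
  have hai : ∀ κ i, |a κ i| ≤ R₀ := by
    intro κ i
    have h1 := hRb _ (ha κ t₁ ht₁)
    have h2 := PiLp.norm_apply_le (a κ + t₁ • r κ) i
    rw [PiLp.add_apply, PiLp.smul_apply, smul_eq_mul, Real.norm_eq_abs] at h2
    have h3 := hrc κ i
    rw [Set.mem_Icc] at h3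
    have h4 : |t₁ * r κ i| ≤ |t₁| := by
      rw [abs_mul, abs_of_nonneg h3.1]
      exact mul_le_of_le_one_right (abs_nonneg _) h3.2
    have h5 : |a κ i| ≤ |a κ i + t₁ * r κ i| + |t₁ * r κ i| := by
      have := abs_sub (a κ i + t₁ * r κ i) (t₁ * r κ i)
      rwa [add_sub_cancel_right] at this
    have h6 := le_abs_self Rb
    linarith
  have hex2 : ∀ κ : Fin n → Fin J, ∀ i : Fin n, ∃ m : Fin F.D → ℤ,
      (∀ k, |(m k : ℝ)| ≤ A₀ * (R₀ * L)) ∧ |L * a κ i - ell F.ω m| * P ≤ A₀ := by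
    intro κ i
    obtain ⟨m, h1, h2⟩ := hcov (R₀ * L) (Nat.mul_pos hR₀1 hL1) (L * a κ i) (by
      rw [abs_mul, abs_of_pos hL0]
      push_cast
      nlinarith [hai κ i])
    refine ⟨m, fun k => ?_, ?_⟩
    · have := h1 k
      push_cast at this
      exact this
    · refine le_trans (mul_le_mul_of_nonneg_left ?_ (abs_nonneg _)) h2
      rw [hPdef]
      refine pow_le_pow_left₀ hL0.le ?_ _
      push_cast
      nlinarith
  choose m hm1 hm2 using hex2
  have hm3 : ∀ κ i, |L * a κ i - ell F.ω (m κ i)| ≤ A₀ / P := fun κ i =>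
    (le_div_iff₀ hP0).2 (hm2 κ i)
  set Y : (Fin n → Fin J) → Fin n → ℝ := fun κ i => ell F.ω (u (κ i)) with hY
  have hYinj : Function.Injective Y := by
    intro κ κ' h
    funext i
    have h1 := congrFun h i
    exact Fin.ext (hu3 _ (κ i).2 _ (κ' i).2 h1)
  obtain ⟨c, hc⟩ := exists_functional (univ.image Y)
  refine ⟨univ.image (fun κ => (∑ i, c i * ell F.ω (m κ i), ∑ i, c i * ell F.ω (u (κ i)))), ?_, ?_⟩
  · have h1 : ((univ.image (fun κ : Fin n → Fin J => (∑ i, c i * ell F.ω (m κ i),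
        ∑ i, c i * ell F.ω (u (κ i))))).image Prod.snd).card = J ^ n := by
      rw [image_image, card_image_of_injective]
      · rw [card_univ, Fintype.card_fun, Fintype.card_fin, Fintype.card_fin]
      · intro κ κ' h
        exact hYinj (hc (mem_coe.2 (mem_image_of_mem _ (mem_univ κ)))
          (mem_coe.2 (mem_image_of_mem _ (mem_univ κ'))) h)
    rw [h1]
    push_cast
    exact pow_le_pow_left₀ (by positivity) hJ n
  · intro t ht
    set V : Finset (Fin n → ℝ) :=
      univ.image (fun κ i => ell F.ω (m κ i) + t * ell F.ω (u (κ i))) with hV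
    set N : ℕ := coverNum B (1 / (L : ℝ) ^ F.D) with hN
    have hle : ((univ.image (fun κ : Fin n → Fin J => (∑ i, c i * ell F.ω (m κ i),
        ∑ i, c i * ell F.ω (u (κ i))))).image fun p => p.1 + t * p.2).card ≤ V.card := by
      have h1 : ((univ.image (fun κ : Fin n → Fin J => (∑ i, c i * ell F.ω (m κ i),
          ∑ i, c i * ell F.ω (u (κ i))))).image fun p => p.1 + t * p.2) =
          V.image (fun v => ∑ i, c i * v i) := by
        rw [hV, image_image, image_image]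
        congr 1
        funext κ
        simp only [Function.comp]
        rw [mul_sum, ← sum_add_distrib]
        exact sum_congr rfl fun i _ => by ring
      rw [h1]
      exact card_image_le
    obtain ⟨U, hU1, hU2⟩ := exists_cover hB (δ := 1 / (L : ℝ) ^ F.D) (by positivity)
    have hk : ∀ κ : Fin n → Fin J, ∃ k : Fin N, a κ + t • r κ ∈ U k := fun κ =>
      Set.mem_iUnion.1 (hU2 (ha κ t ht))
    choose k hk using hk
    have hpre : ∀ v : Fin n → ℝ, ∃ κ : Fin n → Fin J,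
        v ∈ V → (fun i => ell F.ω (m κ i) + t * ell F.ω (u (κ i))) = v := by
      intro v
      by_cases hv : v ∈ V
      · obtain ⟨κ, _, h⟩ := mem_image.1 hv
        exact ⟨κ, fun _ => h⟩
      · exact ⟨fun _ => Classical.arbitrary _, fun h => absurd h hv⟩
    choose pre hpre using hpre
    have hcard : V.card ≤ q t * (univ : Finset (Fin N)).card := by
      refine card_le_mul_card_image_of_maps_to (f := fun v => k (pre v))
        (fun v _ => mem_univ _) (q t) ?_
      intro b _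
      have hσ' : 0 < σ t / (ξ * P) := div_pos (hσ0 t) (by positivity)
      have e : (1 + 2 * A₀) / P / (σ t / (ξ * P)) = (1 + 2 * A₀) * ξ / σ t := by
        have := (hσ0 t).ne'
        field_simp
      have h := count_sep (ρ := (1 + 2 * A₀) / P) (V.filter fun v => k (pre v) = b) hσ' ?_ ?_
      · rw [e] at h
        exact h
      · intro v hv v' hv' i hne
        rw [mem_filter] at hv hv'
        have e1 : v i = ell F.ω (m (pre v) i) + t * ell F.ω (u (pre v i)) :=
          (congrFun (hpre v hv.1) i).symm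
        have e2 : v' i = ell F.ω (m (pre v') i) + t * ell F.ω (u (pre v' i)) :=
          (congrFun (hpre v' hv'.1) i).symm
        have hX1 : 1 ≤ A₀ * (R₀ * L) := by
          have : (1 : ℝ) ≤ R₀ * L := by nlinarith
          nlinarith
        have hux : ∀ κ : Fin n → Fin J, ∀ l, |(u (κ i) l : ℝ)| ≤ A₀ * (R₀ * L) := by
          intro κ l
          refine (hu1 _ (κ i).2 l).trans (mul_le_mul_of_nonneg_left ?_ (by linarith))
          nlinarith
        have h1 := hσ t ht (A₀ * (R₀ * L)) hX1 (m (pre v) i) (u (pre v i)) (m (pre v') i)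
          (u (pre v' i)) (hm1 _ _) (hux (pre v)) (hm1 _ _) (hux (pre v')) (by
            rw [← e1, ← e2]
            exact hne)
        rw [← e1, ← e2] at h1
        rw [div_le_iff₀ (by positivity)]
        refine h1.trans (le_of_eq ?_)
        have e3 : (A₀ * (R₀ * (L : ℝ))) ^ (F.D - 1) = ξ * P := by
          rw [hξ, hPdef, ← mul_pow]
          congr 1
          ring
        rw [e3]
        ring
      · intro v hv v' hv' i
        rw [mem_filter] at hv hv'
        have hkk : ∀ w ∈ V, |L * (a (pre w) + t • r (pre w)) i - w i| ≤ A₀ / P := by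
          intro w hw
          have e1 : w i = ell F.ω (m (pre w) i) + t * ell F.ω (u (pre w i)) :=
            (congrFun (hpre w hw) i).symm
          have e2 : (a (pre w) + t • r (pre w)) i = a (pre w) i + t * (ell F.ω (u (pre w i)) / L) :=
            rfl
          have e3 : L * (a (pre w) + t • r (pre w)) i - w i =
              L * a (pre w) i - ell F.ω (m (pre w) i) := by
            rw [e1, e2]
            field_simp
            ring
          rw [e3]
          exact hm3 _ _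
        have h1 := hkk v hv.1
        have h2 := hkk v' hv'.1
        have h3 : |(a (pre v) + t • r (pre v)) i - (a (pre v') + t • r (pre v')) i| ≤
            1 / (L : ℝ) ^ F.D := by
          have h4 := hU1 b _ (by have := hk (pre v); rwa [hv.2] at this) _
            (by have := hk (pre v'); rwa [hv'.2] at this)
          rw [dist_eq_norm] at h4
          have h5 := PiLp.norm_apply_le
            ((a (pre v) + t • r (pre v)) - (a (pre v') + t • r (pre v'))) i
          rw [PiLp.sub_apply, Real.norm_eq_abs] at h5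
          exact h5.trans h4
        have h6 : |L * (a (pre v) + t • r (pre v)) i - L * (a (pre v') + t • r (pre v')) i| ≤
            1 / P := by
          rw [← mul_sub, abs_mul, abs_of_pos hL0]
          calc L * _ ≤ L * (1 / (L : ℝ) ^ F.D) := mul_le_mul_of_nonneg_left h3 hL0.le
            _ = 1 / P := by rw [hLP]; field_simp
        have h7 := abs_le.1 h1
        have h8 := abs_le.1 h2
        have h9 := abs_le.1 h6
        have h10 : (1 + 2 * A₀) / P = 1 / P + A₀ / P + A₀ / P := by ring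
        rw [h10, abs_le]
        constructor <;> linarith [h7.1, h7.2, h8.1, h8.2, h9.1, h9.2]
    rw [card_univ, Fintype.card_fin] at hcard
    calc _ ≤ (V.card : ℝ) := by exact_mod_cast hle
      _ ≤ (q t : ℝ) * N := by exact_mod_cast hcard
      _ ≤ (∑ t ∈ T, (q t : ℝ)) * N := by
          refine mul_le_mul_of_nonneg_right ?_ (Nat.cast_nonneg _)
          exact single_le_sum (f := fun t => (q t : ℝ)) (fun _ _ => Nat.cast_nonneg _) ht

end Run7.h912.PA
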