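import Pool.Agent.Run7.h912.PA.Boxes

set_option autoImplicit false

/-! # From sets with a pattern to finite sets of numbers, for arbitrary sets of differences -/

open Finset
open Pool.Agent.Run7.h70.IHP

namespace Run7.h912.PA

theorem disc_all {K : Set ℝ} (F : Frame K) (T : Finset ℝ) (hT : ∀ t ∈ T, t ∈ K) {t₁ : ℝ}
    (ht₁ : t₁ ∈ T) (n : ℕ) (M : ℝ) :
    ∃ Q₁ Q₂ : ℝ, 0 < Q₁ ∧ 0 < Q₂ ∧ ∀ R B : Set (E n), (∀ r ∈ R, ∀ i, |r i| ≤ 1) →
      (∀ x ∈ B, ‖x‖ ≤ M) → HasPattern (T : Set ℝ) R B → ∀ L : ℕ, 1 ≤ L →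
      ∃ A : Finset (ℝ × ℝ),
      (coverNum R (1 / (L : ℝ) ^ F.D) : ℝ) ≤ Q₁ * (A.image Prod.snd).card ∧
      ∀ t ∈ T, ((A.image fun p => p.1 + t * p.2).card : ℝ) ≤
        Q₂ * coverNum B (1 / (L : ℝ) ^ F.D) := by
  classical
  obtain ⟨A₀, hA₀, hcov⟩ := cover1 F
  obtain ⟨R₀, hR₀⟩ := exists_nat_gt (|M| + |t₁| + 1)
  have hR₀r : (1 : ℝ) ≤ R₀ := by
    have := abs_nonneg M
    have := abs_nonneg t₁
    linarith
  have hR₀1 : 1 ≤ R₀ := by exact_mod_cast hR₀r
  have hσ : ∀ t : ℝ, ∃ σ : ℝ, 0 < σ ∧ (t ∈ T → ∀ X : ℝ, 1 ≤ X → ∀ m u m' u' : Fin F.D → ℤ,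
      (∀ i, |(m i : ℝ)| ≤ X) → (∀ i, |(u i : ℝ)| ≤ X) → (∀ i, |(m' i : ℝ)| ≤ X) →
      (∀ i, |(u' i : ℝ)| ≤ X) →
      ell F.ω m + t * ell F.ω u ≠ ell F.ω m' + t * ell F.ω u' →
      σ ≤ X ^ (F.D - 1) * |(ell F.ω m + t * ell F.ω u) - (ell F.ω m' + t * ell F.ω u')|) := by
    intro t
    by_cases ht : t ∈ T
    · obtain ⟨σ, h1, h2⟩ := sep_t F (hT t ht)
      exact ⟨σ, h1, fun _ => h2⟩
    · exact ⟨1, one_pos, fun h => absurd h ht⟩
  choose σ hσ0 hσ using hσ
  set ξ : ℝ := (A₀ * R₀) ^ (F.D - 1) with hξ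
  have hξ0 : 0 < ξ := by positivity
  set q : ℝ → ℕ := fun t =>
    (2 * (⌈(1 + 2 * ((1 + |t|) * A₀)) * ξ / σ t⌉₊ + 1) + 1) ^ n with hq
  have hq1 : ∀ t, 1 ≤ q t := fun t => Nat.one_le_pow _ _ (by omega)
  set g : ℕ := (2 * (⌈A₀ * (n + 1)⌉₊ + 1) + 1) ^ n with hg
  have hg1 : 1 ≤ g := Nat.one_le_pow _ _ (by omega)
  refine ⟨g, ∑ t ∈ T, (q t : ℝ), by exact_mod_cast hg1, ?_, ?_⟩
  · refine sum_pos (fun t _ => ?_) ⟨t₁, ht₁⟩
    exact_mod_cast hq1 t
  intro R B hR hBM hP L hL1
  have hB : Bornology.IsBounded B := isBounded_iff_forall_norm_le.2 ⟨M, hBM⟩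
  have hLr : (1 : ℝ) ≤ L := by exact_mod_cast hL1
  have hD := F.hD
  set P : ℝ := (L : ℝ) ^ (F.D - 1) with hPdef
  have hP0 : 0 < P := by positivity
  have hLP : (L : ℝ) ^ F.D = L * P := by
    rw [hPdef, ← pow_succ']
    congr 1
    omega
  have hL0 : (0 : ℝ) < L := by linarith
  -- the rounded differences
  have hex1 : ∀ (r : E n) (i : Fin n), ∃ m : Fin F.D → ℤ, r ∈ R →
      (∀ k, |(m k : ℝ)| ≤ A₀ * L) ∧ |L * r i - ell F.ω m| * P ≤ A₀ := by
    intro r i
    by_cases hr : r ∈ R
    · obtain ⟨m, h1, h2⟩ := hcov L hL1 (L * r i) (by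
        rw [abs_mul, abs_of_pos hL0]
        exact mul_le_of_le_one_right hL0.le (hR r hr i))
      exact ⟨m, fun _ => ⟨h1, h2⟩⟩
    · exact ⟨0, fun h => absurd h hr⟩
  choose w hw using hex1
  have hw3 : ∀ r ∈ R, ∀ i, |L * r i - ell F.ω (w r i)| ≤ A₀ / P := fun r hr i =>
    (le_div_iff₀ hP0).2 (hw r i hr).2
  set X : ℤ := ⌊A₀ * L⌋ with hX
  set W : Finset (Fin n → Fin F.D → ℤ) :=
    (Fintype.piFinset fun _ => Fintype.piFinset fun _ => Finset.Icc (-X) X).filter
      (fun u => ∃ r ∈ R, w r = u) with hW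
  have hwW : ∀ r ∈ R, w r ∈ W := by
    intro r hr
    rw [hW, mem_filter]
    refine ⟨?_, r, hr, rfl⟩
    rw [Fintype.mem_piFinset]
    intro i
    rw [Fintype.mem_piFinset]
    intro k
    have h1 := (hw r i hr).1 k
    rw [mem_Icc, ← abs_le]
    refine Int.le_floor.2 ?_
    push_cast
    exact h1
  have hex2 : ∀ u : Fin n → Fin F.D → ℤ, ∃ r : E n, u ∈ W → r ∈ R ∧ w r = u := by
    intro u
    by_cases hu : u ∈ W
    · obtain ⟨r, hr, h⟩ := (mem_filter.1 hu).2
      exact ⟨r, fun _ => ⟨hr, h⟩⟩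
    · exact ⟨0, fun h => absurd h hu⟩
  choose rp hrp using hex2
  have hex3 : ∀ r : E n, ∃ a : E n, r ∈ R → ∀ t ∈ T, a + t • r ∈ B := by
    intro r
    by_cases hr : r ∈ R
    · obtain ⟨a, ha⟩ := hP r hr
      exact ⟨a, fun _ => ha⟩
    · exact ⟨0, fun h => absurd h hr⟩
  choose a ha using hex3
  have hai : ∀ r ∈ R, ∀ i, |a r i| ≤ R₀ := by
    intro r hr i
    have h1 := hBM _ (ha r hr t₁ ht₁)
    have h2 := PiLp.norm_apply_le (a r + t₁ • r) i
    rw [PiLp.add_apply, PiLp.smul_apply, smul_eq_mul, Real.norm_eq_abs] at h2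
    have h4 : |t₁ * r i| ≤ |t₁| := by
      rw [abs_mul]
      exact mul_le_of_le_one_right (abs_nonneg _) (hR r hr i)
    have h5 : |a r i| ≤ |a r i + t₁ * r i| + |t₁ * r i| := by
      have := abs_sub (a r i + t₁ * r i) (t₁ * r i)
      rwa [add_sub_cancel_right] at this
    have h6 := le_abs_self M
    linarith
  have hex4 : ∀ (r : E n) (i : Fin n), ∃ m : Fin F.D → ℤ, r ∈ R →
      (∀ k, |(m k : ℝ)| ≤ A₀ * (R₀ * L)) ∧ |L * a r i - ell F.ω m| * P ≤ A₀ := by
    intro r i
    by_cases hr : r ∈ R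
    · obtain ⟨m, h1, h2⟩ := hcov (R₀ * L) (Nat.mul_pos hR₀1 hL1) (L * a r i) (by
        rw [abs_mul, abs_of_pos hL0]
        push_cast
        nlinarith [hai r hr i])
      refine ⟨m, fun _ => ⟨fun k => ?_, ?_⟩⟩
      · have := h1 k
        push_cast at this
        exact this
      · refine le_trans (mul_le_mul_of_nonneg_left ?_ (abs_nonneg _)) h2
        rw [hPdef]
        refine pow_le_pow_left₀ hL0.le ?_ _
        push_cast
        nlinarith
    · exact ⟨0, fun h => absurd h hr⟩
  choose m hm using hex4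
  have hm3 : ∀ r ∈ R, ∀ i, |L * a r i - ell F.ω (m r i)| ≤ A₀ / P := fun r hr i =>
    (le_div_iff₀ hP0).2 (hm r i hr).2
  have hWbd : ∀ u ∈ W, ∀ i k, |(u i k : ℝ)| ≤ A₀ * L := by
    intro u hu i k
    have h1 := (hw (rp u) i (hrp u hu).1).1 k
    rwa [(hrp u hu).2] at h1
  set Y : (Fin n → Fin F.D → ℤ) → Fin n → ℝ := fun u i => ell F.ω (u i) with hY
  have hYinj : Function.Injective Y := by
    intro u u' h
    funext i
    have h1 := congrFun h i
    simp only [hY] at h1
    have h2 := F.indep (u i - u' i) (by rw [ell_sub, h1, sub_self])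
    exact sub_eq_zero.1 h2
  obtain ⟨c, hc⟩ := exists_functional (W.image Y)
  refine ⟨W.image (fun u => (∑ i, c i * ell F.ω (m (rp u) i), ∑ i, c i * ell F.ω (u i))), ?_, ?_⟩
  · have h1 : ((W.image (fun u => (∑ i, c i * ell F.ω (m (rp u) i),
        ∑ i, c i * ell F.ω (u i)))).image Prod.snd).card = W.card := by
      rw [image_image, card_image_of_injOn]
      intro u hu u' hu' h
      exact hYinj (hc (mem_coe.2 (mem_image_of_mem _ hu)) (mem_coe.2 (mem_image_of_mem _ hu')) h)
    rw [h1]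
    have h2 := cov_boxes (R := R) (ι := W)
      (fun u => WithLp.toLp 2 (fun i => ell F.ω ((u : Fin n → Fin F.D → ℤ) i) / L))
      (h := A₀ / (P * L)) (δ := 1 / (L : ℝ) ^ F.D) (by positivity) (by
        intro r hr
        refine ⟨⟨w r, hwW r hr⟩, fun i => ?_⟩
        have h3 := hw3 r hr i
        have h4 : r i - ell F.ω (w r i) / L = (L * r i - ell F.ω (w r i)) / L := by
          field_simp
        show |r i - ell F.ω (w r i) / L| ≤ _
        rw [h4, abs_div, abs_of_pos hL0, div_le_iff₀ hL0]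
        refine h3.trans (le_of_eq ?_)
        field_simp)
    have e : A₀ / (P * L) * (n + 1) / (1 / (L : ℝ) ^ F.D) = A₀ * (n + 1) := by
      rw [hLP]
      field_simp
    rw [e, Fintype.card_coe] at h2
    calc (coverNum R (1 / (L : ℝ) ^ F.D) : ℝ) ≤ ((W.card * g : ℕ) : ℝ) := Nat.cast_le.2 h2
      _ = g * W.card := by push_cast; ring
  · intro t ht
    set V : Finset (Fin n → ℝ) :=
      W.image (fun u i => ell F.ω (m (rp u) i) + t * ell F.ω (u i)) with hV
    set N : ℕ := coverNum B (1 / (L : ℝ) ^ F.D) with hN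
    have hle : ((W.image (fun u => (∑ i, c i * ell F.ω (m (rp u) i),
        ∑ i, c i * ell F.ω (u i)))).image fun p => p.1 + t * p.2).card ≤ V.card := by
      have h1 : ((W.image (fun u => (∑ i, c i * ell F.ω (m (rp u) i),
          ∑ i, c i * ell F.ω (u i)))).image fun p => p.1 + t * p.2) =
          V.image (fun v => ∑ i, c i * v i) := by
        rw [hV, image_image, image_image]
        congr 1
        funext u
        simp only [Function.comp]
        rw [mul_sum, ← sum_add_distrib]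
        exact sum_congr rfl fun i _ => by ring
      rw [h1]
      exact card_image_le
    obtain ⟨U, hU1, hU2⟩ := exists_cover hB (δ := 1 / (L : ℝ) ^ F.D) (by positivity)
    have hcard : V.card ≤ q t * N := by
      rcases V.eq_empty_or_nonempty with h0 | ⟨v₀, hv₀⟩
      · rw [h0, card_empty]
        exact Nat.zero_le _
      obtain ⟨u₀, hu₀, _⟩ := mem_image.1 hv₀
      have hpre : ∀ v : Fin n → ℝ, ∃ u : Fin n → Fin F.D → ℤ, u ∈ W ∧ (v ∈ V →
          (fun i => ell F.ω (m (rp u) i) + t * ell F.ω (u i)) = v) := by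
        intro v
        by_cases hv : v ∈ V
        · obtain ⟨u, hu, h⟩ := mem_image.1 hv
          exact ⟨u, hu, fun _ => h⟩
        · exact ⟨u₀, hu₀, fun h => absurd h hv⟩
      choose pre hpreW hpre using hpre
      have hk : ∀ v : Fin n → ℝ, ∃ k : Fin N, a (rp (pre v)) + t • rp (pre v) ∈ U k := fun v =>
        Set.mem_iUnion.1 (hU2 (ha _ (hrp _ (hpreW v)).1 t ht))
      choose k hk using hk
      have hcard' : V.card ≤ q t * (univ : Finset (Fin N)).card := by
        refine card_le_mul_card_image_of_maps_to (f := k) (fun v _ => mem_univ _) (q t) ?_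
        intro b _
        have hσ' : 0 < σ t / (ξ * P) := div_pos (hσ0 t) (by positivity)
        have e : (1 + 2 * ((1 + |t|) * A₀)) / P / (σ t / (ξ * P)) =
            (1 + 2 * ((1 + |t|) * A₀)) * ξ / σ t := by
          have := (hσ0 t).ne'
          field_simp
        have h := count_sep (ρ := (1 + 2 * ((1 + |t|) * A₀)) / P) (V.filter fun v => k v = b)
          hσ' ?_ ?_
        · rw [e] at h
          exact h
        · intro v hv v' hv' i hne
          rw [mem_filter] at hv hv'
          have e1 : v i = ell F.ω (m (rp (pre v)) i) + t * ell F.ω (pre v i) :=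
            (congrFun (hpre v hv.1) i).symm
          have e2 : v' i = ell F.ω (m (rp (pre v')) i) + t * ell F.ω (pre v' i) :=
            (congrFun (hpre v' hv'.1) i).symm
          have hX1 : 1 ≤ A₀ * (R₀ * L) := by
            have : (1 : ℝ) ≤ R₀ * L := by nlinarith
            nlinarith
          have hux : ∀ v : Fin n → ℝ, ∀ l, |(pre v i l : ℝ)| ≤ A₀ * (R₀ * L) := by
            intro v l
            refine (hWbd _ (hpreW v) i l).trans (mul_le_mul_of_nonneg_left ?_ (by linarith))
            nlinarith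
          have h1 := hσ t ht (A₀ * (R₀ * L)) hX1 (m (rp (pre v)) i) (pre v i)
            (m (rp (pre v')) i) (pre v' i) (hm _ _ (hrp _ (hpreW v)).1).1 (hux v)
            (hm _ _ (hrp _ (hpreW v')).1).1 (hux v') (by
              rw [← e1, ← e2]
              exact hne)
          rw [← e1, ← e2] at h1
          rw [div_le_iff₀ (by positivity)]
          refine h1.trans (le_of_eq ?_)
          have e3 : (A₀ * (R₀ * (L : ℝ))) ^ (F.D - 1) = ξ * P := by
            rw [hξ, hPdef, ← mul_pow]
            congr 1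
            ring
          rw [e3]
          ring
        · intro v hv v' hv' i
          rw [mem_filter] at hv hv'
          have hkk : ∀ y ∈ V, |L * (a (rp (pre y)) + t • rp (pre y)) i - y i| ≤
              (1 + |t|) * A₀ / P := by
            intro y hy
            have e1 : y i = ell F.ω (m (rp (pre y)) i) + t * ell F.ω (pre y i) :=
              (congrFun (hpre y hy) i).symm
            have e2 : (a (rp (pre y)) + t • rp (pre y)) i =
                a (rp (pre y)) i + t * rp (pre y) i := rfl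
            have e3 : L * (a (rp (pre y)) + t • rp (pre y)) i - y i =
                (L * a (rp (pre y)) i - ell F.ω (m (rp (pre y)) i)) +
                  t * (L * rp (pre y) i - ell F.ω (pre y i)) := by
              rw [e1, e2]
              ring
            have hin := hrp _ (hpreW y)
            have h1 := hm3 _ hin.1 i
            have h2 := hw3 _ hin.1 i
            rw [hin.2] at h2
            rw [e3]
            calc _ ≤ |L * a (rp (pre y)) i - ell F.ω (m (rp (pre y)) i)| +
                  |t * (L * rp (pre y) i - ell F.ω (pre y i))| := abs_add_le _ _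
              _ ≤ A₀ / P + |t| * (A₀ / P) := by
                  rw [abs_mul]
                  exact add_le_add h1 (mul_le_mul_of_nonneg_left h2 (abs_nonneg _))
              _ = _ := by ring
          have h1 := hkk v hv.1
          have h2 := hkk v' hv'.1
          have h3 : |(a (rp (pre v)) + t • rp (pre v)) i -
              (a (rp (pre v')) + t • rp (pre v')) i| ≤ 1 / (L : ℝ) ^ F.D := by
            have h4 := hU1 b _ (by have := hk v; rwa [hv.2] at this) _
              (by have := hk v'; rwa [hv'.2] at this)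
            rw [dist_eq_norm] at h4
            have h5 := PiLp.norm_apply_le
              ((a (rp (pre v)) + t • rp (pre v)) - (a (rp (pre v')) + t • rp (pre v'))) i
            rw [PiLp.sub_apply, Real.norm_eq_abs] at h5
            exact h5.trans h4
          have h6 : |L * (a (rp (pre v)) + t • rp (pre v)) i -
              L * (a (rp (pre v')) + t • rp (pre v')) i| ≤ 1 / P := by
            rw [← mul_sub, abs_mul, abs_of_pos hL0]
            calc L * _ ≤ L * (1 / (L : ℝ) ^ F.D) := mul_le_mul_of_nonneg_left h3 hL0.le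
              _ = 1 / P := by rw [hLP]; field_simp
          have h7 := abs_le.1 h1
          have h8 := abs_le.1 h2
          have h9 := abs_le.1 h6
          have h10 : (1 + 2 * ((1 + |t|) * A₀)) / P =
              1 / P + (1 + |t|) * A₀ / P + (1 + |t|) * A₀ / P := by ring
          rw [h10, abs_le]
          constructor <;> linarith [h7.1, h7.2, h8.1, h8.2, h9.1, h9.2]
      rwa [card_univ, Fintype.card_fin] at hcard'
    calc _ ≤ (V.card : ℝ) := by exact_mod_cast hle
      _ ≤ (q t : ℝ) * N := by exact_mod_cast hcard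
      _ ≤ (∑ t ∈ T, (q t : ℝ)) * N := by
          refine mul_le_mul_of_nonneg_right ?_ (Nat.cast_nonneg _)
          exact single_le_sum (f := fun t => (q t : ℝ)) (fun _ _ => Nat.cast_nonneg _) ht

end Run7.h912.PA
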