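import Pool.Agent.Run7.h70.IHP.Disc
import Pool.Agent.Run7.h912.PA.Boxes

set_option autoImplicit false

/-! # Discretisation of a pattern with differences in an arbitrary set -/

open Filter Topology Finset MeasureTheory
open Pool.Agent.Run7.h70.IHP

namespace Run7.h912.PA

/-- a finite sample, one point in each cell -/
theorem sampleR {n : ℕ} {δ A : ℝ} (hδ : 0 < δ) (R : Set (E n)) (hR : ∀ r ∈ R, ∀ i, |r i| ≤ A) :
    ∃ S : Finset (E n), (∀ r ∈ S, r ∈ R) ∧ Set.InjOn (rd δ) (S : Set (E n)) ∧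
      coverNum R δ ≤ S.card * (2 * (⌈(n : ℝ) + 1⌉₊ + 1) + 1) ^ n := by
  classical
  have hfin : (rd δ '' R).Finite := by
    obtain ⟨M, hM⟩ := exists_nat_gt (A / δ + 1)
    refine Set.Finite.subset (Finset.finite_toSet (box n M)) ?_
    rintro v ⟨r, hr, rfl⟩
    rw [mem_coe, mem_box]
    intro i
    have h1 := hR r hr i
    have h2 := rd_near δ r i
    have h3 : |r i / δ| ≤ A / δ := by
      rw [abs_div, abs_of_pos hδ]
      exact div_le_div_of_nonneg_right h1 hδ.le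
    have h4 : |(rd δ r i : ℝ)| ≤ M := by
      rw [abs_le] at h2 h3 ⊢
      constructor <;> linarith [h2.1, h2.2, h3.1, h3.2]
    exact_mod_cast h4
  have hch : ∀ v : Fin n → ℤ, ∃ r : E n, v ∈ rd δ '' R → r ∈ R ∧ rd δ r = v := by
    intro v
    by_cases hv : v ∈ rd δ '' R
    · obtain ⟨r, hr⟩ := hv
      exact ⟨r, fun _ => hr⟩
    · exact ⟨0, fun h => absurd h hv⟩
  choose g hg using hch
  have hg' : ∀ v ∈ hfin.toFinset, g v ∈ R ∧ rd δ (g v) = v := fun v hv =>
    hg v (hfin.mem_toFinset.mp hv)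
  refine ⟨hfin.toFinset.image g, ?_, ?_, ?_⟩
  · intro r hr
    obtain ⟨v, hv, rfl⟩ := mem_image.mp hr
    exact (hg' v hv).1
  · intro r hr r' hr' h
    obtain ⟨v, hv, rfl⟩ := mem_image.mp (mem_coe.mp hr)
    obtain ⟨v', hv', rfl⟩ := mem_image.mp (mem_coe.mp hr')
    rw [(hg' v hv).2, (hg' v' hv').2] at h
    rw [h]
  · have h1 := cov_boxes (R := R) (fun s : (hfin.toFinset.image g) => (s : E n)) (h := δ) hδ (by
      intro r hr
      have hv : rd δ r ∈ hfin.toFinset := hfin.mem_toFinset.mpr ⟨r, hr, rfl⟩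
      refine ⟨⟨g (rd δ r), mem_image_of_mem _ hv⟩, fun i => ?_⟩
      have h7 : ⌊r i / δ⌋ = ⌊g (rd δ r) i / δ⌋ := (congrFun (hg' _ hv).2 i).symm
      have h8 := Int.abs_sub_lt_one_of_floor_eq_floor h7
      rw [← sub_div, abs_div, abs_of_pos hδ, div_lt_one hδ] at h8
      exact h8.le)
    rw [Fintype.card_coe] at h1
    have e : δ * ((n : ℝ) + 1) / δ = (n : ℝ) + 1 := by field_simp
    rwa [e] at h1

/-- **Discretisation of a pattern.** -/
theorem discretiseR {t₀ t₁ t₂ : ℝ} (h₁ : t₁ ≠ t₀) (h₂ : t₂ ≠ t₁) (h₃ : t₂ ≠ t₀) :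
    ∃ (m : ℝ → ℕ) (m1 m2 m3 : ℕ), ∀ (n : ℕ) (δ : ℝ), 0 < δ → ∀ (T : Finset ℝ), t₀ ∈ T → t₁ ∈ T →
      ∀ (R : Set (E n)) (A : ℝ), (∀ r ∈ R, ∀ i, |r i| ≤ A) → ∀ (U : ℝ → Set (E n)),
      (∀ r ∈ R, ∃ a : E n, ∀ t ∈ T, a + t • r ∈ U t) → (∀ t ∈ T, Bornology.IsBounded (U t)) →
      ∀ M : ℝ, (∀ t ∈ T, (coverNum (U t) δ : ℝ) ≤ M) →
      ∀ K₀ : ℕ, K₀ = (2 * m1 + 1) ^ n + (2 * m2 + 1) ^ n + (2 * m3 + 1) ^ n →
      ∃ F : Finset ((Fin n → ℤ) × (Fin n → ℤ)),
        coverNum R δ ≤ F.card * K₀ * (2 * (⌈(n : ℝ) + 1⌉₊ + 1) + 1) ^ n ∧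
        ((F.image Prod.fst).card : ℝ) ≤ M * K₀ ∧ ((F.image Prod.snd).card : ℝ) ≤ M * K₀ ∧
        (∀ t ∈ T, t ≠ t₁ →
          ((F.image (phi (((t - t₀) * (t₂ - t₁)) / ((t - t₁) * (t₂ - t₀))))).card : ℝ) ≤
            M * ((2 * m t + 1) ^ n : ℕ)) ∧
        ∀ v, (F.filter fun q => phi ((t₂ - t₁) / (t₂ - t₀)) q = v).card ≤ K₀ := by
  classical
  have d10 : t₁ - t₀ ≠ 0 := sub_ne_zero.mpr h₁
  have d01 : t₀ - t₁ ≠ 0 := sub_ne_zero.mpr h₁.symm
  have d21 : t₂ - t₁ ≠ 0 := sub_ne_zero.mpr h₂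
  have d12 : t₁ - t₂ ≠ 0 := sub_ne_zero.mpr h₂.symm
  have d20 : t₂ - t₀ ≠ 0 := sub_ne_zero.mpr h₃
  set γ : ℝ := (t₂ - t₀) / (t₁ - t₂) with hγ
  set ν : ℝ := (t₂ - t₁) / (t₂ - t₀) with hν
  set c : ℝ → ℝ := fun t => ((t - t₀) * (t₂ - t₁)) / ((t - t₁) * (t₂ - t₀)) with hc
  set κ : ℝ → ℝ := fun t => (t₁ - t₀) / (t₁ - t) with hκ
  obtain ⟨m1, hm1⟩ := exists_nat_gt (2 * (1 : ℝ) + |(1 : ℝ)|)
  obtain ⟨m2, hm2⟩ := exists_nat_gt (2 * (1 : ℝ) + |γ|)
  obtain ⟨m3, hm3⟩ := exists_nat_gt (2 * (|ν| + 2) / |t₀ - t₁| + 1)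
  choose m hm using fun t : ℝ => exists_nat_gt (2 * (|c t| + 2) + |κ t|)
  refine ⟨m, m1, m2, m3, ?_⟩
  intro n δ hδ T ht₀ ht₁ R A hR U hU hB M hM K₀ hK₀
  obtain ⟨S, hS1, hS2, hS3⟩ := sampleR hδ R hR
  have hpick : ∀ r : E n, ∃ a : E n, r ∈ S → ∀ t ∈ T, a + t • r ∈ U t := by
    intro r
    by_cases hr : r ∈ S
    · obtain ⟨a, ha⟩ := hU r (hS1 r hr)
      exact ⟨a, fun _ => ha⟩
    · exact ⟨0, fun h => absurd h hr⟩
  choose a ha using hpick
  set p : ℝ → E n → E n := fun t r => a r + t • r with hp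
  set w : E n → (Fin n → ℤ) := fun r => rd δ (p t₀ r) with hw
  set x : E n → (Fin n → ℤ) := fun r => rd δ (γ • p t₁ r) with hx
  set F : Finset ((Fin n → ℤ) × (Fin n → ℤ)) := S.image (fun r => (w r, x r)) with hF
  -- the estimate for the slice maps
  have hest : ∀ (b : ℝ) (r : E n) (i : Fin n),
      |(phi b (w r, x r) i : ℝ) - (p t₀ r i / δ + b * (γ * p t₁ r i / δ))| ≤ |b| + 2 := by
    intro b r i
    have e1 := rd_near δ (p t₀ r) i
    have e2 := rd_near δ (γ • p t₁ r) i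
    have e3 := sc_near b (x r) i
    have e4 : (γ • p t₁ r) i = γ * p t₁ r i := by rw [PiLp.smul_apply, smul_eq_mul]
    rw [e4] at e2
    have e5 : |b * (x r i : ℝ) - b * (γ * p t₁ r i / δ)| ≤ |b| := by
      rw [← mul_sub, abs_mul]
      exact mul_le_of_le_one_right (abs_nonneg _) e2
    have e6 : (phi b (w r, x r) i : ℝ) = (w r i : ℝ) + (sc b (x r) i : ℝ) := by
      simp only [phi, Pi.add_apply]
      push_cast
      rfl
    rw [e6]
    simp only [hw] at e1 ⊢
    rw [abs_le] at e1 e3 e5 ⊢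
    constructor <;> linarith [e1.1, e1.2, e3.1, e3.2, e5.1, e5.2]
  -- coverings
  have hcover : ∀ t ∈ T, ∃ (Mt : ℕ) (P : Fin Mt → Set (E n)), (Mt : ℝ) ≤ M ∧
      (∀ k, ∀ x ∈ P k, ∀ y ∈ P k, dist x y ≤ δ) ∧ ∀ r ∈ S, p t r ∈ ⋃ k, P k := by
    intro t ht
    obtain ⟨P, hP1, hP2⟩ := exists_cover (hB t ht) hδ
    exact ⟨_, P, hM t ht, hP1, fun r hr => hP2 (ha r hr t ht)⟩
  have hM0 : 0 ≤ M := (Nat.cast_nonneg _).trans (hM t₀ ht₀)
  have hle1 : (((2 * m1 + 1) ^ n : ℕ) : ℝ) ≤ K₀ := by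
    exact_mod_cast (by omega : (2 * m1 + 1) ^ n ≤ K₀)
  have hle2 : (((2 * m2 + 1) ^ n : ℕ) : ℝ) ≤ K₀ := by
    exact_mod_cast (by omega : (2 * m2 + 1) ^ n ≤ K₀)
  -- the fibres of the target map on the sample
  have hfib : ∀ v, (S.filter fun r => phi ν (w r, x r) = v).card ≤ (2 * m3 + 1) ^ n := by
    intro v
    have h5 : ((S.filter fun r => phi ν (w r, x r) = v).image (rd δ)).card =
        (S.filter fun r => phi ν (w r, x r) = v).card := by
      refine card_image_of_injOn ?_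
      intro r hr r' hr' h
      exact hS2 (mem_coe.mpr (mem_filter.mp (mem_coe.mp hr)).1)
        (mem_coe.mpr (mem_filter.mp (mem_coe.mp hr')).1) h
    rw [← h5]
    have h6 : (((S.filter fun r => phi ν (w r, x r) = v).image (rd δ)).card : ℝ) ≤
        ((2 * m3 + 1) ^ n : ℕ) := by
      refine card_diam _ ?_
      intro y hy y' hy' i
      obtain ⟨r, hr, rfl⟩ := mem_image.mp hy
      obtain ⟨r', hr', rfl⟩ := mem_image.mp hy'
      have e1 := hest ν r i
      have e2 := hest ν r' i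
      rw [(mem_filter.mp hr).2] at e1
      rw [(mem_filter.mp hr').2] at e2
      have e3 : ∀ r : E n, p t₀ r i / δ + ν * (γ * p t₁ r i / δ) = (t₀ - t₁) * (r i / δ) := by
        intro r
        have e4 : ν * γ = -1 := by rw [hν, hγ]; field_simp; ring
        have e5 : p t₀ r i = a r i + t₀ * r i := by
          simp only [hp, PiLp.add_apply, PiLp.smul_apply, smul_eq_mul]
        have e6 : p t₁ r i = a r i + t₁ * r i := by
          simp only [hp, PiLp.add_apply, PiLp.smul_apply, smul_eq_mul]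
        calc p t₀ r i / δ + ν * (γ * p t₁ r i / δ) = (p t₀ r i + ν * γ * p t₁ r i) / δ := by ring
          _ = (t₀ - t₁) * (r i / δ) := by rw [e4, e5, e6]; ring
      rw [e3] at e1 e2
      have e7 : |(t₀ - t₁) * (r i / δ - r' i / δ)| ≤ 2 * (|ν| + 2) := by
        rw [abs_le] at e1 e2 ⊢
        constructor <;> linarith [e1.1, e1.2, e2.1, e2.2]
      have hd : 0 < |t₀ - t₁| := abs_pos.mpr d01
      rw [abs_mul, mul_comm, ← le_div_iff₀ hd] at e7
      have e8 : |((rd δ r i : ℝ) - rd δ r' i)| < |r i / δ - r' i / δ| + 1 := by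
        have f1 := Int.floor_le (r i / δ)
        have f2 := Int.sub_one_lt_floor (r i / δ)
        have f3 := Int.floor_le (r' i / δ)
        have f4 := Int.sub_one_lt_floor (r' i / δ)
        have f5 := le_abs_self (r i / δ - r' i / δ)
        have f6 := neg_abs_le (r i / δ - r' i / δ)
        simp only [rd]
        rw [abs_lt]
        constructor <;> linarith
      linarith
    exact_mod_cast h6
  refine ⟨F, ?_, ?_, ?_, ?_, ?_⟩
  · have h7 : S.card ≤ (2 * m3 + 1) ^ n * F.card := by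
      refine card_le_mul_card_image S _ fun b hb => ?_
      refine le_trans (card_le_card ?_) (hfib (phi ν b))
      intro r hr
      obtain ⟨hr1, hr2⟩ := mem_filter.mp hr
      exact mem_filter.mpr ⟨hr1, by rw [hr2]⟩
    have h8 : S.card ≤ F.card * K₀ := by
      have h9 : (2 * m3 + 1) ^ n ≤ K₀ := by omega
      calc S.card ≤ (2 * m3 + 1) ^ n * F.card := h7
        _ ≤ K₀ * F.card := Nat.mul_le_mul_right _ h9
        _ = F.card * K₀ := mul_comm _ _
    exact hS3.trans (Nat.mul_le_mul_right _ h8)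
  · obtain ⟨Mt, P, g1, g2, g3⟩ := hcover t₀ ht₀
    have h7 := card_slices hδ S w (p t₀) P g2 g3 (κ := 1) (e := 1) (fun r _ i => by
      rw [one_mul]
      exact rd_near δ (p t₀ r) i) hm1.le
    have h8 : F.image Prod.fst = S.image w := by
      rw [hF, image_image]
      rfl
    rw [h8]
    refine h7.trans ?_
    calc (Mt : ℝ) * ((2 * m1 + 1) ^ n : ℕ) ≤ M * ((2 * m1 + 1) ^ n : ℕ) :=
          mul_le_mul_of_nonneg_right g1 (by positivity)
      _ ≤ M * K₀ := mul_le_mul_of_nonneg_left hle1 hM0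
  · obtain ⟨Mt, P, g1, g2, g3⟩ := hcover t₁ ht₁
    have h7 := card_slices hδ S x (p t₁) P g2 g3 (κ := γ) (e := 1) (fun r _ i => by
      have e2 := rd_near δ (γ • p t₁ r) i
      have e4 : (γ • p t₁ r) i = γ * p t₁ r i := by rw [PiLp.smul_apply, smul_eq_mul]
      rw [e4, mul_div_assoc] at e2
      exact e2) hm2.le
    have h8 : F.image Prod.snd = S.image x := by
      rw [hF, image_image]
      rfl
    rw [h8]
    refine h7.trans ?_
    calc (Mt : ℝ) * ((2 * m2 + 1) ^ n : ℕ) ≤ M * ((2 * m2 + 1) ^ n : ℕ) :=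
          mul_le_mul_of_nonneg_right g1 (by positivity)
      _ ≤ M * K₀ := mul_le_mul_of_nonneg_left hle2 hM0
  · intro t ht htne
    obtain ⟨Mt, P, g1, g2, g3⟩ := hcover t ht
    have dt : t - t₁ ≠ 0 := sub_ne_zero.mpr htne
    have dt' : t₁ - t ≠ 0 := sub_ne_zero.mpr htne.symm
    have h7 := card_slices hδ S (fun r => phi (c t) (w r, x r)) (p t) P g2 g3 (κ := κ t)
      (e := |c t| + 2) (fun r _ i => by
        have e1 := hest (c t) r i
        have e2 : p t₀ r i / δ + c t * (γ * p t₁ r i / δ) = κ t * (p t r i / δ) := by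
          have e5 : p t₀ r i = a r i + t₀ * r i := by
            simp only [hp, PiLp.add_apply, PiLp.smul_apply, smul_eq_mul]
          have e6 : p t₁ r i = a r i + t₁ * r i := by
            simp only [hp, PiLp.add_apply, PiLp.smul_apply, smul_eq_mul]
          have e7 : p t r i = a r i + t * r i := by
            simp only [hp, PiLp.add_apply, PiLp.smul_apply, smul_eq_mul]
          have e8 : c t * γ = (t - t₀) / (t₁ - t) := by
            rw [hc, hγ]
            simp only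
            rw [div_mul_div_comm, div_eq_div_iff (mul_ne_zero (mul_ne_zero dt d20) d12) dt']
            ring
          have e9 : p t₀ r i + (t - t₀) / (t₁ - t) * p t₁ r i = κ t * p t r i := by
            rw [e5, e6, e7, hκ]
            field_simp
            ring
          calc p t₀ r i / δ + c t * (γ * p t₁ r i / δ) = (p t₀ r i + c t * γ * p t₁ r i) / δ := by
                ring
            _ = κ t * (p t r i / δ) := by rw [e8, e9]; ring
        rw [e2] at e1
        exact e1) (hm t).le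
    have h8 : F.image (phi (c t)) = S.image (fun r => phi (c t) (w r, x r)) := by
      rw [hF, image_image]
      rfl
    have h9 : ((F.image (phi (c t))).card : ℝ) ≤ M * ((2 * m t + 1) ^ n : ℕ) := by
      rw [h8]
      exact h7.trans (mul_le_mul_of_nonneg_right g1 (by positivity))
    exact h9
  · intro v
    have h7 : (F.filter fun q => phi ν q = v) ⊆
        (S.filter fun r => phi ν (w r, x r) = v).image (fun r => (w r, x r)) := by
      intro q hq
      obtain ⟨hq1, hq2⟩ := mem_filter.mp hq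
      obtain ⟨r, hr, rfl⟩ := mem_image.mp hq1
      exact mem_image_of_mem _ (mem_filter.mpr ⟨hr, hq2⟩)
    refine (card_le_card h7).trans (card_image_le.trans ((hfib v).trans ?_))
    omega

end Run7.h912.PA
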