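import Pool.Agent.Run7.h912.PA.VApprox

set_option autoImplicit false

/-! # No discretised configurations in growing dimensions (after `Run7.h70.IHP.NoConfig`) -/

open Filter Topology Finset
open scoped Pointwise
open Pool.Agent.Run7.h70.IHP
open Pool.Agent.Run7.h84.US (graph_lemma)

namespace Run7.h912.PA

/-- **No discretised configurations.** -/
theorem vno_config {n : ℕ → ℕ} {N : ℕ → ℝ} (hN : Tendsto N atTop atTop)
    (hG : ∀ D : ℕ, Up N 0 (fun j => ((D ^ n j : ℕ) : ℝ)))
    (E : ∀ j, Finset ((Fin (n j) → ℤ) × (Fin (n j) → ℤ))) (T : Set ℝ) {ν : ℝ}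
    (hν : ν ∈ Subfield.closure T)
    (hE : Lo N 2 (fun j => ((E j).card : ℝ)))
    (h1 : Up N 1 (fun j => (((E j).image Prod.fst).card : ℝ)))
    (h2 : Up N 1 (fun j => (((E j).image Prod.snd).card : ℝ)))
    (h3 : ∀ c ∈ insert 1 T, Up N 1 (fun j => (((E j).image (phi c)).card : ℝ)))
    (C : ℕ → ℕ) (hC : Up N 0 (fun j => (C j : ℝ)))
    (h4 : ∀ j, ∀ v, ((E j).filter fun p => phi ν p = v).card ≤ C j) : False := by
  classical
  set U : ∀ j, Finset (Fin (n j) → ℤ) := fun j => (E j).image Prod.fst with hU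
  set V : ∀ j, Finset (Fin (n j) → ℤ) := fun j => (E j).image Prod.snd with hV
  set M : ℕ → ℝ := fun j => ((U j).card : ℝ) + (V j).card with hM
  have hMup : Up N 1 M := h1.add hN h2
  have hM0 : ∀ j, 0 ≤ M j := fun j => by positivity
  have hM2 : Up N 2 (fun j => M j * M j) :=
    (hMup.mul hN hMup hM0).congr_exp (by norm_num)
  have hMpos : ∀ᶠ j in atTop, 0 < M j := by
    filter_upwards [hE.pos hN] with j hj
    have hne : (E j).Nonempty := by rw [← card_pos]; exact_mod_cast hj
    have h5 : 0 < (U j).card := card_pos.mpr (hne.image _)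
    have h6 : (0 : ℝ) < (U j).card := by exact_mod_cast h5
    simp only [hM]
    positivity
  -- the graph lemma
  have hgl : ∀ j, ∃ W X : Finset (Fin (n j) → ℤ), 0 < M j → 0 < ((E j).card : ℝ) →
      W ⊆ U j ∧ X ⊆ V j ∧
      (((E j).card : ℝ) / (M j) ^ 2) ^ 2 / 24 * (M j) ^ 2 ≤
        (((W ×ˢ X).filter fun q => (q.1, q.2) ∈ E j).card : ℝ) ∧
      ∀ w ∈ W, ∀ x ∈ X, (((E j).card : ℝ) / (M j) ^ 2) ^ 6 / 12288 * (M j) ^ 2 ≤
        ((Pth (E j) w x).card : ℝ) := by
    intro j
    by_cases hj : 0 < M j ∧ 0 < ((E j).card : ℝ)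
    · obtain ⟨hj1, hj2⟩ := hj
      have hsum : ∑ u ∈ U j, (((V j).filter fun v => (u, v) ∈ E j).card : ℝ) = ((E j).card : ℝ) := by
        have e1 : (E j).card = ∑ u ∈ U j, ((E j).filter fun p => p.1 = u).card :=
          card_eq_sum_card_fiberwise (fun p hp => mem_image_of_mem _ hp)
        rw [e1]
        push_cast
        refine sum_congr rfl fun u _ => ?_
        congr 1
        refine card_bij' (fun v _ => (u, v)) (fun p _ => p.2) ?_ ?_ ?_ ?_
        · intro v hv
          exact mem_filter.mpr ⟨(mem_filter.mp hv).2, rfl⟩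
        · intro p hp
          obtain ⟨hp1, hp2⟩ := mem_filter.mp hp
          refine mem_filter.mpr ⟨mem_image_of_mem _ hp1, ?_⟩
          rw [← hp2]
          exact hp1
        · intro v _
          rfl
        · intro p hp
          obtain ⟨_, hp2⟩ := mem_filter.mp hp
          exact Prod.ext hp2.symm rfl
      obtain ⟨A', hA', B', hB', h5, h6⟩ := graph_lemma (U j) (V j) (fun u v => (u, v) ∈ E j) (M j)
        (((E j).card : ℝ) / (M j) ^ 2) hj1 (by positivity)
        (by simp only [hM]; linarith [Nat.cast_nonneg (α := ℝ) (V j).card])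
        (by simp only [hM]; linarith [Nat.cast_nonneg (α := ℝ) (U j).card])
        (by rw [hsum, div_mul_cancel₀ _ (by positivity)])
      exact ⟨A', B', fun _ _ => ⟨hA', hB', h5, fun w hw x hx => h6 w hw x hx⟩⟩
    · exact ⟨∅, ∅, fun h h' => absurd ⟨h, h'⟩ hj⟩
  choose W X hWX using hgl
  have hev : ∀ᶠ j in atTop, 0 < M j ∧ 0 < ((E j).card : ℝ) := hMpos.and (hE.pos hN)
  -- exponents
  have hedge : Lo N 2 (fun j => (((W j ×ˢ X j).filter fun q => (q.1, q.2) ∈ E j).card : ℝ)) := by
    have e1 : Lo N 2 (fun j => (((E j).card : ℝ) * (E j).card) / (M j * M j) * (1 / 24)) :=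
      (((hE.mul hN hE).div hN hM2 (by
        filter_upwards [hMpos] with j hj
        positivity)).cmul hN (by norm_num)).congr_exp (by norm_num)
    refine e1.mono ?_
    filter_upwards [hev] with j hj
    refine le_trans (le_of_eq ?_) (hWX j hj.1 hj.2).2.2.1
    have := hj.1.ne'
    field_simp
  have hpath : Lo N 2 (fun j => (((E j).card : ℝ) / (M j) ^ 2) ^ 6 / 12288 * (M j) ^ 2) := by
    have a1 : Lo N 0 (fun j => ((E j).card : ℝ) / (M j * M j)) :=
      (hE.div hN hM2 (by
        filter_upwards [hMpos] with j hj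
        positivity)).congr_exp (by norm_num)
    have a2 : Lo N 2 (fun j => M j * M j) := by
      refine hE.mono (Eventually.of_forall fun j => ?_)
      have b1 : (E j) ⊆ U j ×ˢ V j := fun p hp =>
        mem_product.mpr ⟨mem_image_of_mem _ hp, mem_image_of_mem _ hp⟩
      have b2 := card_le_card b1
      rw [card_product] at b2
      have b3 : ((E j).card : ℝ) ≤ (U j).card * (V j).card := by exact_mod_cast b2
      have b4 : (0 : ℝ) ≤ (U j).card := Nat.cast_nonneg _
      have b5 : (0 : ℝ) ≤ (V j).card := Nat.cast_nonneg _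
      exact b3.trans (mul_le_mul (by simp only [hM]; linarith) (by simp only [hM]; linarith) b5
        (hM0 j))
    have a3 := ((((((a1.mul hN a1).mul hN a1).mul hN a1).mul hN a1).mul hN a1).mul hN a2).cmul hN
      (show (0 : ℝ) < 1 / 12288 by norm_num)
    refine (a3.congr_exp (show (0 : ℝ) + 0 + 0 + 0 + 0 + 0 + 2 = 2 by norm_num)).mono
      (Eventually.of_forall fun j => le_of_eq ?_)
    rw [← pow_two (M j)]
    ring
  have hWsub : ∀ᶠ j in atTop, ((W j).card : ℝ) ≤ (U j).card := by
    filter_upwards [hev] with j hj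
    exact_mod_cast card_le_card (hWX j hj.1 hj.2).1
  have hXsub : ∀ᶠ j in atTop, ((X j).card : ℝ) ≤ (V j).card := by
    filter_upwards [hev] with j hj
    exact_mod_cast card_le_card (hWX j hj.1 hj.2).2.1
  have hprod : ∀ j, (((W j ×ˢ X j).filter fun q => (q.1, q.2) ∈ E j).card : ℝ) ≤
      (W j).card * (X j).card := by
    intro j
    have := card_le_card (filter_subset (fun q => (q.1, q.2) ∈ E j) (W j ×ˢ X j))
    rw [card_product] at this
    exact_mod_cast this
  have hw1 : Up N 1 (fun j => ((W j).card : ℝ)) := h1.mono hWsub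
  have hx1 : Up N 1 (fun j => ((X j).card : ℝ)) := h2.mono hXsub
  have hpp : ∀ᶠ j in atTop, 0 < ((W j).card : ℝ) ∧ 0 < ((X j).card : ℝ) := by
    filter_upwards [hedge.pos hN] with j hj
    have h5 := hj.trans_le (hprod j)
    constructor
    · by_contra h6
      have h7 : ((W j).card : ℝ) = 0 := le_antisymm (not_lt.mp h6) (by positivity)
      rw [h7, zero_mul] at h5
      exact lt_irrefl _ h5
    · by_contra h6
      have h7 : ((X j).card : ℝ) = 0 := le_antisymm (not_lt.mp h6) (by positivity)
      rw [h7, mul_zero] at h5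
      exact lt_irrefl _ h5
  have hw2 : Lo N 1 (fun j => ((W j).card : ℝ)) := by
    refine ((hedge.div hN hx1 (hpp.mono fun j hj => hj.2)).congr_exp (by norm_num)).mono ?_
    filter_upwards [hpp] with j hj
    rw [div_le_iff₀ hj.2]
    exact hprod j
  have hx2 : Lo N 1 (fun j => ((X j).card : ℝ)) := by
    refine ((hedge.div hN hw1 (hpp.mono fun j hj => hj.1)).congr_exp (by norm_num)).mono ?_
    filter_upwards [hpp] with j hj
    rw [div_le_iff₀ hj.1, mul_comm]
    exact hprod j
  -- the slices
  have hok : ∀ c ∈ insert 1 T, c ≠ 0 → Up N 1 (fun j => ((W j + (X j).image (sc c)).card : ℝ)) := by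
    intro c hcT hc
    have a1 := h3 c hcT
    have a2 := (((a1.mul hN a1 (fun j => by positivity)).mul hN a1 (fun j => by positivity)).mul hN
      (hG (2 * ⌈1 / |c|⌉₊ + 1)) (fun j => by positivity)).div hN hpath
    refine (a2.congr_exp (show (1 : ℝ) + 1 + 1 + 0 - 2 = 1 by norm_num)).mono ?_
    filter_upwards [hev] with j hj
    have a3 : 0 < (((E j).card : ℝ) / (M j) ^ 2) ^ 6 / 12288 * (M j) ^ 2 := by
      have := hj.1
      have := hj.2
      positivity
    rw [le_div_iff₀ a3]
    refine (card_sum (E j) hc (W j) (X j) (hWX j hj.1 hj.2).2.2.2).trans (le_of_eq ?_)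
    ring
  have hbase : VBase n N W X := ⟨hN, hG, hw1, hw2, hx1, hx2, by
    have := hok 1 (Set.mem_insert _ _) one_ne_zero
    have e : (fun j => ((W j + (X j).image (sc 1)).card : ℝ)) = fun j => ((W j + X j).card : ℝ) := by
      funext j
      rw [image_sc_one]
    rwa [e] at this⟩
  have hfield := hbase.field (T := T) (fun σ hσ => by
    by_cases h0 : σ = 0
    · rw [h0]
      exact hbase.zero
    · exact hok σ (Set.mem_insert_of_mem _ hσ) h0) ν hν
  -- the contradiction
  have hfin : Up N 1 (fun j => (((W j ×ˢ X j).filter fun q => (q.1, q.2) ∈ E j).card : ℝ)) := by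
    refine ((hfield.mul hN hC (fun j => by positivity)).congr_exp (add_zero 1)).mono
      (Eventually.of_forall fun j => ?_)
    set Q := (W j ×ˢ X j).filter fun q => (q.1, q.2) ∈ E j with hQ
    have b1 : Q.card ≤ C j * (Q.image (phi ν)).card := by
      refine card_le_mul_card_image _ _ fun v _ => ?_
      refine le_trans (card_le_card ?_) (h4 j v)
      intro p hp
      obtain ⟨hp1, hp2⟩ := mem_filter.mp hp
      exact mem_filter.mpr ⟨(mem_filter.mp hp1).2, hp2⟩
    have b2 : Q.image (phi ν) ⊆ W j + (X j).image (sc ν) := by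
      intro v hv
      obtain ⟨p, hp, rfl⟩ := mem_image.mp hv
      have hp1 := mem_product.mp (mem_filter.mp hp).1
      exact Finset.add_mem_add hp1.1 (mem_image_of_mem _ hp1.2)
    have b3 : (Q.card : ℝ) ≤ C j * (W j + (X j).image (sc ν)).card := by
      exact_mod_cast b1.trans (Nat.mul_le_mul_left _ (card_le_card b2))
    linarith
  exact hfin.not_lo hN hedge (by norm_num)

end Run7.h912.PA
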