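import Pool.Agent.Run7.h912.PA.RealDisc
import Pool.Agent.Run7.h912.PA.VNoConfig
import Pool.Agent.Run7.h912.PA.AllScales
import Pool.Agent.Run7.h70.IHP.Strict

set_option autoImplicit false

/-! # Real patterns: all scales, all dimensions, arbitrary sets of differences -/

open Filter Topology Finset MeasureTheory
open Pool.Agent.Run7.h70.IHP

namespace Run7.h912.PA

/-- the inequality for all bounded sets and all scales -/
def AnyScale (T : Set ℝ) (n : ℕ) (κ : ℝ) : Prop :=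
  ∃ C : ℝ, 0 < C ∧ ∀ R B : Set (E n), Bornology.IsBounded B → HasPattern T R B → ∀ δ : ℝ, 0 < δ →
    (coverNum R δ : ℝ) ≤ C * (coverNum B δ : ℝ) ^ κ

theorem AnyScale.all {T : Set ℝ} {n : ℕ} {κ : ℝ} (h : AnyScale T n κ) : AllScales T n κ := by
  intro M
  obtain ⟨C, hC, h⟩ := h
  exact ⟨C, hC, fun R B _ hB hp δ hδ _ =>
    h R B (isBounded_iff_forall_norm_le.2 ⟨M, hB⟩) hp δ hδ⟩

/-- the differences are bounded -/
theorem diff_bounded {n : ℕ} {T : Finset ℝ} {t₀ t₁ : ℝ} (m₀ : t₀ ∈ T) (m₁ : t₁ ∈ T) (h₁ : t₁ ≠ t₀)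
    {R B : Set (E n)} (hB : Bornology.IsBounded B) (hp : HasPattern (T : Set ℝ) R B) :
    ∃ A : ℝ, ∀ r ∈ R, ∀ i, |r i| ≤ A := by
  obtain ⟨M, hM⟩ := hB.exists_norm_le
  have d10 : 0 < |t₁ - t₀| := abs_pos.mpr (sub_ne_zero.mpr h₁)
  refine ⟨(M + M) / |t₁ - t₀|, fun r hr i => ?_⟩
  obtain ⟨a, ha⟩ := hp r hr
  have h2 := hM _ (ha t₁ (Finset.mem_coe.mpr m₁))
  have h3 := hM _ (ha t₀ (Finset.mem_coe.mpr m₀))
  have h4 : ‖(t₁ - t₀) • r‖ ≤ M + M := by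
    have e : (t₁ - t₀) • r = (a + t₁ • r) - (a + t₀ • r) := by
      rw [sub_smul]
      abel
    rw [e]
    exact (norm_sub_le _ _).trans (add_le_add h2 h3)
  rw [norm_smul, Real.norm_eq_abs] at h4
  have h5 := PiLp.norm_apply_le r i
  rw [Real.norm_eq_abs] at h5
  rw [le_div_iff₀ d10, mul_comm]
  exact (mul_le_mul_of_nonneg_left h5 d10.le).trans h4

theorem real_scales (T : Finset ℝ) {t₀ t₁ t₂ : ℝ} (m₀ : t₀ ∈ T) (m₁ : t₁ ∈ T)
    (m₂ : t₂ ∈ T) (h₁ : t₁ ≠ t₀) (h₂ : t₂ ≠ t₁) (h₃ : t₂ ≠ t₀)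
    (hρ : (t₂ - t₀) / (t₁ - t₀) ∈ Subfield.closure (crs T t₀ t₁ t₂)) :
    ∃ κ : ℝ, 1 ≤ κ ∧ κ < 2 ∧ ∀ n : ℕ, AnyScale (T : Set ℝ) n κ := by
  classical
  by_contra hcon
  push Not at hcon
  have d10 : t₁ - t₀ ≠ 0 := sub_ne_zero.mpr h₁
  have d21 : t₂ - t₁ ≠ 0 := sub_ne_zero.mpr h₂
  have d20 : t₂ - t₀ ≠ 0 := sub_ne_zero.mpr h₃
  have hν : (t₂ - t₁) / (t₂ - t₀) ∈ Subfield.closure (crs T t₀ t₁ t₂) := by
    have e : (t₂ - t₁) / (t₂ - t₀) = 1 - ((t₂ - t₀) / (t₁ - t₀))⁻¹ := by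
      field_simp
      ring
    rw [e]
    exact sub_mem (one_mem _) (inv_mem hρ)
  obtain ⟨m, m1, m2, m3, hdisc⟩ := discretiseR h₁ h₂ h₃
  set K₀ : ℕ → ℕ := fun n => (2 * m1 + 1) ^ n + (2 * m2 + 1) ^ n + (2 * m3 + 1) ^ n with hK₀
  set Q : ℕ → ℕ := fun n => (2 * (⌈(n : ℝ) + 1⌉₊ + 1) + 1) ^ n with hQ
  have hK0 : ∀ n, (1 : ℝ) ≤ K₀ n := fun n => by
    have : 0 < K₀ n := by simp only [hK₀]; positivity
    exact_mod_cast this
  have hQ0 : ∀ n, (1 : ℝ) ≤ Q n := fun n => by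
    have : 0 < Q n := by simp only [hQ]; positivity
    exact_mod_cast this
  -- the configurations
  have hconf : ∀ k : ℕ, ∃ (n : ℕ) (N : ℝ) (F : Finset ((Fin n → ℤ) × (Fin n → ℤ))),
      0 < N ∧ 2 * (2 : ℝ) ^ n < N ^ (1 / ((k : ℝ) + 1)) ∧
      N ^ (2 - 1 / ((k : ℝ) + 1)) ≤ F.card ∧
      ((F.image Prod.fst).card : ℝ) ≤ N * K₀ n ∧ ((F.image Prod.snd).card : ℝ) ≤ N * K₀ n ∧
      (∀ t ∈ T, t ≠ t₁ →
        ((F.image (phi (((t - t₀) * (t₂ - t₁)) / ((t - t₁) * (t₂ - t₀))))).card : ℝ) ≤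
          N * ((2 * m t + 1) ^ n : ℕ)) ∧
      ∀ v, (F.filter fun q => phi ((t₂ - t₁) / (t₂ - t₀)) q = v).card ≤ K₀ n := by
    intro k
    have hk0 : (0 : ℝ) ≤ k := Nat.cast_nonneg k
    have hk1 : 1 / ((k : ℝ) + 1) ≤ 1 := by
      rw [div_le_one (by positivity)]
      linarith
    have hk2 : 0 < 1 / ((k : ℝ) + 1) := by positivity
    obtain ⟨n, h4⟩ := hcon (2 - 1 / ((k : ℝ) + 1)) (by linarith) (by linarith)
    unfold AnyScale at h4
    push Not at h4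
    have k0 := hK0 n
    have q0 := hQ0 n
    obtain ⟨R, B, hBb, hpat, δ, hδ, hlt⟩ :=
      h4 (2 * 2 ^ n * (K₀ n : ℝ) ^ 3 * Q n) (by positivity)
    obtain ⟨A, hR⟩ := diff_bounded m₀ m₁ h₁ hBb hpat
    obtain ⟨F, f1, f2, f3, f4, f5⟩ := hdisc n δ hδ T m₀ m₁ R A hR (fun _ => B)
      (fun r hr => hpat r hr) (fun _ _ => hBb) (coverNum B δ : ℝ) (fun _ _ => le_rfl) (K₀ n) rfl
    set N : ℝ := (coverNum B δ : ℝ) with hN
    have hN0 : 0 ≤ N := Nat.cast_nonneg _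
    have f0 : coverNum R δ ≤ F.card * K₀ n * Q n := f1
    have f1' : (coverNum R δ : ℝ) ≤ F.card * K₀ n * Q n := by exact_mod_cast f0
    have hFc : (F.card : ℝ) ≤ (N * K₀ n) * (N * K₀ n) := by
      have b1 : F ⊆ F.image Prod.fst ×ˢ F.image Prod.snd := fun p hp =>
        mem_product.mpr ⟨mem_image_of_mem _ hp, mem_image_of_mem _ hp⟩
      have b2 := card_le_card b1
      rw [card_product] at b2
      have b3 : (F.card : ℝ) ≤ (F.image Prod.fst).card * (F.image Prod.snd).card := by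
        exact_mod_cast b2
      exact b3.trans (mul_le_mul f2 f3 (Nat.cast_nonneg _) (by positivity))
    have hNpos : 0 < N := by
      rcases hN0.lt_or_eq with h | h
      · exact h
      · exfalso
        rw [← h, zero_mul, zero_mul] at hFc
        have e1 : (F.card : ℝ) = 0 := le_antisymm hFc (Nat.cast_nonneg _)
        rw [e1, zero_mul, zero_mul] at f1'
        have e2 : 0 ≤ 2 * 2 ^ n * (K₀ n : ℝ) ^ 3 * Q n * N ^ (2 - 1 / ((k : ℝ) + 1)) := by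
          positivity
        linarith
    have hsplit : N ^ (2 - 1 / ((k : ℝ) + 1)) * N ^ (1 / ((k : ℝ) + 1)) = N * N := by
      rw [← Real.rpow_add hNpos, sub_add_cancel]
      rw [show (2 : ℝ) = 1 + 1 by norm_num, Real.rpow_add hNpos, Real.rpow_one]
    have hP : 0 < N ^ (2 - 1 / ((k : ℝ) + 1)) := Real.rpow_pos_of_pos hNpos _
    refine ⟨n, N, F, hNpos, ?_, ?_, f2, f3, f4, f5⟩
    · -- `N` is large
      have g2 : 2 * 2 ^ n * (K₀ n : ℝ) ^ 3 * Q n * N ^ (2 - 1 / ((k : ℝ) + 1)) <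
          (N * K₀ n) * (N * K₀ n) * (K₀ n * Q n) := by
        refine hlt.trans_le (f1'.trans ?_)
        rw [mul_assoc]
        exact mul_le_mul_of_nonneg_right hFc (by positivity)
      have g3 : (N * K₀ n) * (N * K₀ n) * (K₀ n * Q n) =
          (K₀ n : ℝ) ^ 3 * Q n * N ^ (2 - 1 / ((k : ℝ) + 1)) * N ^ (1 / ((k : ℝ) + 1)) := by
        rw [mul_assoc ((K₀ n : ℝ) ^ 3 * Q n), hsplit]
        ring
      rw [g3] at g2
      have g4 : 0 < (K₀ n : ℝ) ^ 3 * Q n * N ^ (2 - 1 / ((k : ℝ) + 1)) := by positivity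
      have g5 : (K₀ n : ℝ) ^ 3 * Q n * N ^ (2 - 1 / ((k : ℝ) + 1)) * (2 * 2 ^ n) <
          (K₀ n : ℝ) ^ 3 * Q n * N ^ (2 - 1 / ((k : ℝ) + 1)) * N ^ (1 / ((k : ℝ) + 1)) := by
        refine lt_of_eq_of_lt ?_ g2
        ring
      exact lt_of_mul_lt_mul_left g5 g4.le
    · -- many pairs
      have g2 : 2 * 2 ^ n * (K₀ n : ℝ) ^ 3 * Q n * N ^ (2 - 1 / ((k : ℝ) + 1)) <
          F.card * K₀ n * Q n := hlt.trans_le f1'
      have hK3 : (K₀ n : ℝ) ≤ 2 * 2 ^ n * (K₀ n : ℝ) ^ 3 := by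
        have a1 : (1 : ℝ) ≤ 2 ^ n := one_le_pow₀ (by norm_num)
        have a2 : (K₀ n : ℝ) ≤ (K₀ n : ℝ) ^ 3 := le_self_pow₀ k0 (by norm_num)
        have a3 : (K₀ n : ℝ) ^ 3 ≤ 2 * 2 ^ n * (K₀ n : ℝ) ^ 3 :=
          le_mul_of_one_le_left (by positivity) (by linarith)
        exact a2.trans a3
      have g4 : (K₀ n : ℝ) * Q n * N ^ (2 - 1 / ((k : ℝ) + 1)) ≤ (K₀ n : ℝ) * Q n * F.card := by
        have g5 : (K₀ n : ℝ) * Q n * N ^ (2 - 1 / ((k : ℝ) + 1)) ≤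
            2 * 2 ^ n * (K₀ n : ℝ) ^ 3 * Q n * N ^ (2 - 1 / ((k : ℝ) + 1)) :=
          mul_le_mul_of_nonneg_right (mul_le_mul_of_nonneg_right hK3 (by positivity)) hP.le
        refine g5.trans (g2.le.trans (le_of_eq ?_))
        ring
      exact le_of_mul_le_mul_left g4 (by positivity)
  choose n N F hN0 hN hF1 hF2 hF3 hF4 hF5 using hconf
  have hbig : ∀ k : ℕ, (2 : ℝ) ^ (k + 1) ≤ N k := by
    intro k
    have g1 : (2 : ℝ) ≤ (N k) ^ (1 / ((k : ℝ) + 1)) := by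
      have a1 : (1 : ℝ) ≤ 2 ^ (n k) := one_le_pow₀ (by norm_num)
      have := hN k
      linarith
    have g7 := pow_le_pow_left₀ (by norm_num) g1 (k + 1)
    rwa [← Real.rpow_natCast, ← Real.rpow_natCast, ← Real.rpow_mul (hN0 k).le, Nat.cast_add,
      Nat.cast_one, one_div_mul_cancel (by positivity), Real.rpow_one,
      show ((k : ℝ) + 1) = ((k + 1 : ℕ) : ℝ) by push_cast; rfl, Real.rpow_natCast] at g7
  have hN1 : ∀ k, 1 ≤ N k := fun k => (one_le_pow₀ (by norm_num)).trans (hbig k)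
  have hNt : Tendsto N atTop atTop := by
    refine tendsto_atTop_mono (fun k => ?_) tendsto_natCast_atTop_atTop
    have h1 : ((k : ℕ) : ℝ) ≤ (2 : ℝ) ^ (k + 1) := by
      have h2 : k ≤ 2 ^ (k + 1) := (Nat.le_succ k).trans (Nat.lt_two_pow_self (n := k + 1)).le
      exact_mod_cast h2
    exact h1.trans (hbig k)
  have hsmall : ∀ η : ℝ, 0 < η → ∀ᶠ k : ℕ in atTop, 1 / ((k : ℝ) + 1) ≤ η := by
    intro η hη
    have := tendsto_one_div_add_atTop_nhds_zero_nat (𝕜 := ℝ)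
    exact this.eventually (ge_mem_nhds hη)
  -- the dimension is negligible
  have hG : ∀ D : ℕ, Up N 0 (fun j => ((D ^ n j : ℕ) : ℝ)) := by
    intro D η hη
    filter_upwards [hsmall (η / (D + 1)) (by positivity)] with j hj
    have a1 : ((D ^ n j : ℕ) : ℝ) ≤ ((2 : ℝ) ^ (n j)) ^ D := by
      have b1 : D ≤ 2 ^ D := Nat.lt_two_pow_self.le
      have b2 : D ^ n j ≤ (2 ^ D) ^ n j := Nat.pow_le_pow_left b1 _
      have b3 : ((2 : ℕ) ^ D) ^ n j = (2 ^ n j) ^ D := by rw [← pow_mul, ← pow_mul, mul_comm]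
      rw [b3] at b2
      exact_mod_cast b2
    have a2 : (2 : ℝ) ^ (n j) ≤ (N j) ^ (1 / ((j : ℝ) + 1)) := by
      have := hN j
      have a3 : (0 : ℝ) < 2 ^ (n j) := by positivity
      linarith
    calc ((D ^ n j : ℕ) : ℝ) ≤ ((2 : ℝ) ^ (n j)) ^ D := a1
      _ ≤ ((N j) ^ (1 / ((j : ℝ) + 1))) ^ D := pow_le_pow_left₀ (by positivity) a2 D
      _ = (N j) ^ (1 / ((j : ℝ) + 1) * D) := by rw [Real.rpow_mul (hN0 j).le, Real.rpow_natCast]
      _ ≤ (N j) ^ (0 + η) := by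
          refine Real.rpow_le_rpow_of_exponent_le (hN1 j) ?_
          have hD : (0 : ℝ) ≤ D := Nat.cast_nonneg D
          calc 1 / ((j : ℝ) + 1) * D ≤ η / (D + 1) * D := mul_le_mul_of_nonneg_right hj hD
            _ ≤ η / (D + 1) * (D + 1) := mul_le_mul_of_nonneg_left (by linarith) (by positivity)
            _ = 0 + η := by field_simp; ring
  have hKup : Up N 0 (fun j => ((K₀ (n j) : ℕ) : ℝ)) := by
    have h := ((hG (2 * m1 + 1)).add hNt (hG (2 * m2 + 1))).add hNt (hG (2 * m3 + 1))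
    refine h.mono (Eventually.of_forall fun j => le_of_eq ?_)
    simp only [hK₀]
    push_cast
    ring
  have hM : Up N 1 N := by
    intro η hη
    refine Eventually.of_forall fun k => ?_
    calc N k = (N k) ^ (1 : ℝ) := (Real.rpow_one _).symm
      _ ≤ (N k) ^ (1 + η) := Real.rpow_le_rpow_of_exponent_le (hN1 k) (by linarith)
  have hE : Lo N 2 (fun k => ((F k).card : ℝ)) := by
    intro η hη
    filter_upwards [hsmall η hη] with k hk
    exact (Real.rpow_le_rpow_of_exponent_le (hN1 k) (by linarith)).trans (hF1 k)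
  refine vno_config hNt hG F (crs T t₀ t₁ t₂) hν hE
    (((hM.mul hNt hKup (fun j => by positivity)).congr_exp (add_zero 1)).mono
      (Eventually.of_forall hF2))
    (((hM.mul hNt hKup (fun j => by positivity)).congr_exp (add_zero 1)).mono
      (Eventually.of_forall hF3)) ?_ (fun j => K₀ (n j)) hKup hF5
  intro b hb
  have hone : ∀ t ∈ T, t ≠ t₁ → b = ((t - t₀) * (t₂ - t₁)) / ((t - t₁) * (t₂ - t₀)) →
      Up N 1 (fun j => (((F j).image (phi b)).card : ℝ)) := by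
    intro t ht hne hb'
    rw [hb']
    exact ((hM.mul hNt (hG (2 * m t + 1)) (fun j => by positivity)).congr_exp (add_zero 1)).mono
      (Eventually.of_forall fun k => hF4 k t ht hne)
  rcases hb with hb | ⟨t, ht, hne, hb⟩
  · refine hone t₂ m₂ h₂ ?_
    rw [hb, mul_comm, div_self (mul_ne_zero d21 d20)]
  · exact hone t ht hne hb

end Run7.h912.PA
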