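import Pool.Agent.Run7.h912.PA.Cover1
import Pool.Agent.Run7.h70.IHP.Pattern

set_option autoImplicit false

/-! # Tools: separated sets, functionals, denominators -/

open Finset
open Pool.Agent.Run7.h70.IHP

namespace Run7.h912.PA

/-- a separated set of small diameter has few elements -/
theorem count_sep {n : ℕ} (V : Finset (Fin n → ℝ)) {σ ρ : ℝ} (hσ : 0 < σ)
    (hsep : ∀ v ∈ V, ∀ v' ∈ V, ∀ i, v i ≠ v' i → σ ≤ |v i - v' i|)
    (hdiam : ∀ v ∈ V, ∀ v' ∈ V, ∀ i, |v i - v' i| ≤ ρ) :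
    V.card ≤ (2 * (⌈ρ / σ⌉₊ + 1) + 1) ^ n := by
  classical
  rcases V.eq_empty_or_nonempty with rfl | ⟨v₀, hv₀⟩
  · rw [card_empty]
    exact Nat.zero_le _
  set R : ℕ := ⌈ρ / σ⌉₊ + 1 with hR
  have hRr : ρ / σ + 1 ≤ (R : ℝ) := by
    rw [hR]
    push_cast
    have := Nat.le_ceil (ρ / σ)
    linarith
  have h : V.card ≤ (Fintype.piFinset (fun _ : Fin n => Finset.Icc (-(R : ℤ)) R)).card := by
    apply card_le_card_of_injOn (fun v i => ⌊(v i - v₀ i) / σ⌋)
    · intro v hv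
      rw [mem_coe, Fintype.mem_piFinset]
      intro i
      rw [mem_Icc]
      have h1 := abs_le.1 (hdiam v hv v₀ hv₀ i)
      have h2 : (v i - v₀ i) / σ ≤ ρ / σ := div_le_div_of_nonneg_right h1.2 hσ.le
      have h3 : -(ρ / σ) ≤ (v i - v₀ i) / σ := by
        rw [← neg_div]
        exact div_le_div_of_nonneg_right h1.1 hσ.le
      constructor
      · refine Int.le_floor.mpr ?_
        push_cast
        linarith
      · have h5 : (⌊(v i - v₀ i) / σ⌋ : ℝ) ≤ (R : ℝ) := by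
          have := Int.floor_le ((v i - v₀ i) / σ)
          linarith
        exact_mod_cast h5
    · intro v hv v' hv' hvv
      funext i
      by_contra hne
      have h1 := hsep v hv v' hv' i hne
      have h2 := congrFun hvv i
      have h3 := Int.abs_sub_lt_one_of_floor_eq_floor h2
      rw [← sub_div, abs_div, abs_of_pos hσ, div_lt_one hσ, sub_sub_sub_cancel_right] at h3
      linarith
  rw [Fintype.card_piFinset] at h
  simp only [Int.card_Icc, prod_const, card_univ, Fintype.card_fin] at h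
  refine h.trans (le_of_eq ?_)
  congr 1
  omega

theorem exists_functional {n : ℕ} (V : Finset (Fin n → ℝ)) :
    ∃ c : Fin n → ℝ, Set.InjOn (fun y : Fin n → ℝ => ∑ i, c i * y i) V := by
  classical
  set P : (Fin n → ℝ) → Polynomial ℝ :=
    fun v => ∑ i : Fin n, Polynomial.C (v i) * Polynomial.X ^ (i : ℕ) with hP
  have hP0 : ∀ v, v ≠ 0 → P v ≠ 0 := by
    intro v hv h
    apply hv
    funext i
    have h1 : Polynomial.coeff (P v) (i : ℕ) = v i := by
      rw [hP]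
      simp only [Polynomial.finsetSum_coeff, Polynomial.coeff_C_mul, Polynomial.coeff_X_pow]
      rw [Finset.sum_eq_single i]
      · simp
      · intro j _ hji
        have : ¬ (i : ℕ) = (j : ℕ) := fun h2 => hji (Fin.ext h2.symm)
        simp [this]
      · intro h2
        exact absurd (mem_univ i) h2
    rw [h] at h1
    simpa using h1.symm
  set W : Finset ((Fin n → ℝ) × (Fin n → ℝ)) := (V ×ˢ V).filter (fun p => p.1 ≠ p.2) with hW
  have hQ : ∏ p ∈ W, P (p.1 - p.2) ≠ 0 :=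
    prod_ne_zero_iff.2 fun p hp => hP0 _ (sub_ne_zero.2 (mem_filter.1 hp).2)
  obtain ⟨x, hx⟩ : ∃ x, Polynomial.eval x (∏ p ∈ W, P (p.1 - p.2)) ≠ 0 := by
    by_contra hcon
    push Not at hcon
    exact hQ (Polynomial.funext (fun x => by rw [hcon x, Polynomial.eval_zero]))
  refine ⟨fun i => x ^ (i : ℕ), fun v hv v' hv' h => ?_⟩
  by_contra hne
  rw [Polynomial.eval_prod, prod_ne_zero_iff] at hx
  apply hx (v, v') (mem_filter.2 ⟨mem_product.2 ⟨hv, hv'⟩, hne⟩)
  simp only [hP, Polynomial.eval_finsetSum, Polynomial.eval_mul, Polynomial.eval_C,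
    Polynomial.eval_pow, Polynomial.eval_X, Pi.sub_apply]
  simp only at h
  have h1 : ∑ i : Fin n, (v i - v' i) * x ^ (i : ℕ) =
      ∑ i : Fin n, x ^ (i : ℕ) * v i - ∑ i : Fin n, x ^ (i : ℕ) * v' i := by
    rw [← sum_sub_distrib]
    exact sum_congr rfl fun i _ => by ring
  rw [h1, h, sub_self]

/-- the values of `x + t y` are separated -/
theorem sep_t {K : Set ℝ} (F : Frame K) {t : ℝ} (ht : t ∈ K) :
    ∃ σ : ℝ, 0 < σ ∧ ∀ X : ℝ, 1 ≤ X → ∀ m u m' u' : Fin F.D → ℤ,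
      (∀ i, |(m i : ℝ)| ≤ X) → (∀ i, |(u i : ℝ)| ≤ X) → (∀ i, |(m' i : ℝ)| ≤ X) →
      (∀ i, |(u' i : ℝ)| ≤ X) →
      ell F.ω m + t * ell F.ω u ≠ ell F.ω m' + t * ell F.ω u' →
      σ ≤ X ^ (F.D - 1) * |(ell F.ω m + t * ell F.ω u) - (ell F.ω m' + t * ell F.ω u')| := by
  obtain ⟨w, M, hw, hM⟩ := Pool.Agent.Run7.h70.IHP.NF.mulvec F ht
  set S : ℝ := ∑ i, ∑ j, |(M i j : ℝ)| with hS
  have hS0 : 0 ≤ S := sum_nonneg fun _ _ => sum_nonneg fun _ _ => abs_nonneg _
  have hwr : (0 : ℝ) < w := by exact_mod_cast hw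
  have hw1 : (1 : ℝ) ≤ w := by exact_mod_cast hw
  set H : ℝ := w + S with hH
  have hH1 : 1 ≤ H := by linarith
  have hC := F.hC
  have hval : ∀ m u : Fin F.D → ℤ, (w : ℝ) * (ell F.ω m + t * ell F.ω u) =
      ell F.ω ((fun i => (w : ℤ) * m i) + fun j => ∑ i, u i * M i j) := by
    intro m u
    rw [ell_add, Pool.Agent.Run7.h70.IHP.NF.ell_smul, ← hM u]
    push_cast
    ring
  have hbd : ∀ X : ℝ, 1 ≤ X → ∀ m u : Fin F.D → ℤ, (∀ i, |(m i : ℝ)| ≤ X) →
      (∀ i, |(u i : ℝ)| ≤ X) → ∀ j,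
      |((((fun i => (w : ℤ) * m i) + fun j => ∑ i, u i * M i j) j : ℤ) : ℝ)| ≤ H * X := by
    intro X hX m u hm hu j
    simp only [Pi.add_apply]
    push_cast
    have h1 : |(w : ℝ) * m j| ≤ w * X := by
      rw [abs_mul, abs_of_pos hwr]
      exact mul_le_mul_of_nonneg_left (hm j) hwr.le
    have h2 : |∑ i, (u i : ℝ) * (M i j : ℝ)| ≤ S * X := by
      calc |∑ i, (u i : ℝ) * (M i j : ℝ)| ≤ ∑ i, |(u i : ℝ) * (M i j : ℝ)| :=
            abs_sum_le_sum_abs _ _
        _ ≤ ∑ i, (∑ j, |(M i j : ℝ)|) * X := by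
            refine sum_le_sum fun i _ => ?_
            rw [abs_mul, mul_comm]
            exact mul_le_mul (single_le_sum (f := fun j => |(M i j : ℝ)|)
              (fun _ _ => abs_nonneg _) (mem_univ j)) (hu i) (abs_nonneg _)
              (sum_nonneg fun _ _ => abs_nonneg _)
        _ = S * X := by rw [hS, sum_mul]
    calc _ ≤ |(w : ℝ) * m j| + |∑ i, (u i : ℝ) * (M i j : ℝ)| := abs_add_le _ _
      _ ≤ w * X + S * X := add_le_add h1 h2
      _ = H * X := by rw [hH]; ring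
  refine ⟨1 / (F.C * (2 * H) ^ (F.D - 1) * w), by positivity, ?_⟩
  intro X hX m u m' u' hm hu hm' hu' hne
  have hHX : 1 ≤ H * X := by nlinarith
  have h := sep1 F hHX (hbd X hX m u hm hu) (hbd X hX m' u' hm' hu') (by
    rw [← hval, ← hval]
    intro h
    exact hne (mul_left_cancel₀ hwr.ne' h))
  rw [← hval, ← hval, ← mul_sub, abs_mul, abs_of_pos hwr] at h
  rw [div_le_iff₀ (by positivity)]
  calc (1 : ℝ) ≤ _ := h
    _ = _ := by
      have : (2 * (H * X)) ^ (F.D - 1) = (2 * H) ^ (F.D - 1) * X ^ (F.D - 1) := by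
        rw [← mul_pow]
        congr 1
        ring
      rw [this]
      ring

end Run7.h912.PA
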