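import Pool.Agent.Run7.h70.IHP.NoConfig

set_option autoImplicit false

/-! # Sums of dilates of integer vectors, rounded, in growing dimensions (after `Run7.h70.IHP.Approx`) -/

open Filter Topology Finset
open scoped Pointwise
open Pool.Agent.Run7.h70.IHP

namespace Run7.h912.PA

/-- the base configuration -/
structure VBase (n : ℕ → ℕ) (N : ℕ → ℝ) (W X : ∀ j, Finset (Fin (n j) → ℤ)) : Prop where
  hN : Tendsto N atTop atTop
  hG : ∀ D : ℕ, Up N 0 (fun j => ((D ^ n j : ℕ) : ℝ))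
  w1 : Up N 1 (fun j => ((W j).card : ℝ))
  w2 : Lo N 1 (fun j => ((W j).card : ℝ))
  x1 : Up N 1 (fun j => ((X j).card : ℝ))
  x2 : Lo N 1 (fun j => ((X j).card : ℝ))
  wx : Up N 1 (fun j => ((W j + X j).card : ℝ))

variable {n : ℕ → ℕ} {N : ℕ → ℝ} {W X : ∀ j, Finset (Fin (n j) → ℤ)}

theorem vtri (hN : Tendsto N atTop atTop) {A B C : ∀ j, Finset (Fin (n j) → ℤ)}
    (h1 : Up N 1 (fun j => ((A j + B j).card : ℝ))) (h2 : Up N 1 (fun j => ((B j + C j).card : ℝ)))
    (h3 : Lo N 1 (fun j => ((B j).card : ℝ))) : Up N 1 (fun j => ((A j + C j).card : ℝ)) := by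
  have h4 := ((h1.mul hN h2 (fun j => by positivity)).div hN h3).congr_exp
    (show (1 : ℝ) + 1 - 1 = 1 by ring)
  refine h4.mono ?_
  filter_upwards [h3.pos hN] with j hj
  rw [le_div_iff₀ hj]
  exact_mod_cast ruzsa_triangle_inequality_add_add_add (A j) (B j) (C j)

theorem vtri_sub (hN : Tendsto N atTop atTop) {A B C : ∀ j, Finset (Fin (n j) → ℤ)}
    (h1 : Up N 1 (fun j => ((A j + B j).card : ℝ))) (h2 : Up N 1 (fun j => ((B j + C j).card : ℝ)))
    (h3 : Lo N 1 (fun j => ((B j).card : ℝ))) : Up N 1 (fun j => ((A j - C j).card : ℝ)) := by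
  have h4 := ((h1.mul hN h2 (fun j => by positivity)).div hN h3).congr_exp
    (show (1 : ℝ) + 1 - 1 = 1 by ring)
  refine h4.mono ?_
  filter_upwards [h3.pos hN] with j hj
  rw [le_div_iff₀ hj]
  have := ruzsa_triangle_inequality_sub_add_add (A j) (B j) (C j)
  rw [add_comm (C j) (B j)] at this
  exact_mod_cast this

/-- the good multipliers -/
def VOk (N : ℕ → ℝ) (W X : ∀ j, Finset (Fin (n j) → ℤ)) (σ : ℝ) : Prop :=
  Up N 1 (fun j => ((W j + (X j).image (sc σ)).card : ℝ))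

theorem VBase.ww (h : VBase n N W X) : Up N 1 (fun j => ((W j + W j).card : ℝ)) := by
  refine vtri h.hN h.wx ?_ h.x2
  have := h.wx
  simpa [add_comm] using this

theorem VBase.zero (h : VBase n N W X) : VOk N W X 0 := by
  refine (h.w1.mono (Eventually.of_forall fun j => ?_))
  have h1 : W j + (X j).image (sc 0) ⊆ W j := by
    intro v hv
    rw [Finset.mem_add] at hv
    obtain ⟨w, hw, y, hy, rfl⟩ := hv
    obtain ⟨x, _, rfl⟩ := mem_image.mp hy
    rw [sc_zero, add_zero]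
    exact hw
  exact_mod_cast card_le_card h1

theorem VBase.one (h : VBase n N W X) : VOk N W X 1 := by
  have : (fun j => ((W j + (X j).image (sc 1)).card : ℝ)) = fun j => ((W j + X j).card : ℝ) := by
    funext j
    rw [image_sc_one]
  unfold VOk
  rw [this]
  exact h.wx

theorem VBase.xlo (h : VBase n N W X) {σ : ℝ} (hσ : σ ≠ 0) :
    Lo N 1 (fun j => (((X j).image (sc σ)).card : ℝ)) := by
  set m : ℕ := ⌈1 / |σ|⌉₊ with hm
  refine ((h.x2.div h.hN (h.hG (2 * m + 1)) (Eventually.of_forall fun j => by positivity)).congr_exp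
    (sub_zero 1)).mono (Eventually.of_forall fun j => ?_)
  have h1 := card_fibre (m := m) (X j) (sc σ) (fun x _ x' _ hxx i => sc_fibre hσ hxx i)
  rw [div_le_iff₀ (by positivity)]
  exact h1

theorem VBase.xs (h : VBase n N W X) {σ : ℝ} (hs : VOk N W X σ) :
    Up N 1 (fun j => ((X j + (X j).image (sc σ)).card : ℝ)) := by
  refine vtri h.hN (B := W) ?_ hs h.w2
  have := h.wx
  simpa [add_comm] using this

/-- comparison of sum sets which are close to each other -/
theorem vnear (hN : Tendsto N atTop atTop) (hG : ∀ D : ℕ, Up N 0 (fun j => ((D ^ n j : ℕ) : ℝ)))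
    {U U' : ∀ j, Finset (Fin (n j) → ℤ)} {e : ℝ}
    (h : Up N e (fun j => ((U j).card : ℝ))) (m : ℕ)
    (hm : ∀ j, ∀ u' ∈ U' j, ∃ u ∈ U j, ∀ i, |((u' i : ℝ) - u i)| ≤ m) :
    Up N e (fun j => ((U' j).card : ℝ)) :=
  ((h.mul hN (hG (2 * m + 1)) (fun j => by positivity)).congr_exp (add_zero e)).mono
    (Eventually.of_forall fun j => card_near (hm j))

theorem VBase.neg (h : VBase n N W X) {σ : ℝ} (hs : VOk N W X σ) : VOk N W X (-σ) := by
  have h1 : Up N 1 (fun j => ((W j - (X j).image (sc σ)).card : ℝ)) :=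
    vtri_sub h.hN h.ww hs h.w2
  refine vnear h.hN h.hG h1 2 fun j u' hu' => ?_
  rw [Finset.mem_add] at hu'
  obtain ⟨w, hw, y, hy, rfl⟩ := hu'
  obtain ⟨x, hx, rfl⟩ := mem_image.mp hy
  refine ⟨w - sc σ x, Finset.sub_mem_sub hw (mem_image_of_mem _ hx), fun i => ?_⟩
  have e1 := sc_near σ x i
  have e2 := sc_near (-σ) x i
  rw [Pi.add_apply, Pi.sub_apply]
  push_cast
  rw [abs_le] at e1 e2 ⊢
  constructor <;> linarith

/-- dilation of a sum set -/
theorem vnear_dil (h : VBase n N W X) {ρ σ : ℝ}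
    (hs : Up N 1 (fun j => ((X j + (X j).image (sc σ)).card : ℝ))) :
    Up N 1 (fun j => (((X j).image (sc ρ) + (X j).image (sc (ρ * σ))).card : ℝ)) := by
  have h1 : Up N 1 (fun j => (((X j + (X j).image (sc σ)).image (sc ρ)).card : ℝ)) :=
    hs.mono (Eventually.of_forall fun j => by exact_mod_cast card_image_le)
  refine vnear h.hN h.hG h1 ⌈|ρ| + 3⌉₊ fun j u' hu' => ?_
  rw [Finset.mem_add] at hu'
  obtain ⟨y, hy, z, hz, rfl⟩ := hu'
  obtain ⟨x, hx, rfl⟩ := mem_image.mp hy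
  obtain ⟨x', hx', rfl⟩ := mem_image.mp hz
  refine ⟨sc ρ (x + sc σ x'), mem_image_of_mem _ (Finset.add_mem_add hx (mem_image_of_mem _ hx')),
    fun i => ?_⟩
  have e1 := sc_near ρ x i
  have e2 := sc_near (ρ * σ) x' i
  have e3 := sc_near ρ (x + sc σ x') i
  have e4 := sc_near σ x' i
  rw [Pi.add_apply]
  rw [Pi.add_apply] at e3
  push_cast at e3 ⊢
  have e5 : |ρ * (sc σ x' i : ℝ) - ρ * (σ * x' i)| ≤ |ρ| := by
    rw [← mul_sub, abs_mul]
    exact mul_le_of_le_one_right (abs_nonneg _) e4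
  have e6 : |ρ| + 3 ≤ (⌈|ρ| + 3⌉₊ : ℝ) := Nat.le_ceil _
  refine le_trans ?_ e6
  rw [abs_le] at e1 e2 e3 e5 ⊢
  constructor <;> linarith [e1.1, e1.2, e2.1, e2.2, e3.1, e3.2, e5.1, e5.2]

theorem VBase.mul (h : VBase n N W X) {ρ σ : ℝ} (hr : VOk N W X ρ) (hs : VOk N W X σ) :
    VOk N W X (ρ * σ) := by
  by_cases hρ : ρ = 0
  · rw [hρ, zero_mul]
    exact h.zero
  · exact vtri h.hN (B := fun j => (X j).image (sc ρ)) hr (vnear_dil h (h.xs hs)) (h.xlo hρ)

theorem VBase.inv (h : VBase n N W X) {σ : ℝ} (hs : VOk N W X σ) : VOk N W X σ⁻¹ := by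
  by_cases hσ : σ = 0
  · rw [hσ, inv_zero]
    exact h.zero
  · -- first `X + σ⁻¹ X`
    have h1 : Up N 1 (fun j => (((X j).image (sc σ) + X j).card : ℝ)) := by
      have := h.xs hs
      simpa [add_comm] using this
    have h2 : Up N 1 (fun j => ((((X j).image (sc σ) + X j).image (sc σ⁻¹)).card : ℝ)) :=
      h1.mono (Eventually.of_forall fun j => by exact_mod_cast card_image_le)
    have h3 : Up N 1 (fun j => ((X j + (X j).image (sc σ⁻¹)).card : ℝ)) := by
      refine vnear h.hN h.hG h2 ⌈|σ⁻¹| + 3⌉₊ fun j u' hu' => ?_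
      rw [Finset.mem_add] at hu'
      obtain ⟨x, hx, z, hz, rfl⟩ := hu'
      obtain ⟨x', hx', rfl⟩ := mem_image.mp hz
      refine ⟨sc σ⁻¹ (sc σ x + x'), mem_image_of_mem _ (Finset.add_mem_add (mem_image_of_mem _ hx) hx'),
        fun i => ?_⟩
      have e1 := sc_near σ x i
      have e2 := sc_near σ⁻¹ x' i
      have e3 := sc_near σ⁻¹ (sc σ x + x') i
      rw [Pi.add_apply]
      rw [Pi.add_apply] at e3
      push_cast at e3 ⊢
      have e5 : |σ⁻¹ * (sc σ x i : ℝ) - x i| ≤ |σ⁻¹| := by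
        have e7 : σ⁻¹ * (sc σ x i : ℝ) - x i = σ⁻¹ * ((sc σ x i : ℝ) - σ * x i) := by
          field_simp
        rw [e7, abs_mul]
        exact mul_le_of_le_one_right (abs_nonneg _) e1
      have e6 : |σ⁻¹| + 3 ≤ (⌈|σ⁻¹| + 3⌉₊ : ℝ) := Nat.le_ceil _
      refine le_trans ?_ e6
      rw [abs_le] at e2 e3 e5 ⊢
      constructor <;> linarith [e2.1, e2.2, e3.1, e3.2, e5.1, e5.2]
    exact vtri h.hN (B := X) h.wx h3 h.x2

theorem VBase.add (h : VBase n N W X) {ρ σ : ℝ} (hr : VOk N W X ρ) (hs : VOk N W X σ) :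
    VOk N W X (ρ + σ) := by
  set B : ∀ j, Finset (Fin (n j) → ℤ) := fun j => W j ∪ (X j).image (sc ρ) ∪ (X j).image (sc σ) with hB
  have hWB : Up N 1 (fun j => ((W j + B j).card : ℝ)) := by
    refine ((h.ww.add h.hN hr).add h.hN hs).mono (Eventually.of_forall fun j => ?_)
    have e1 : W j + B j ⊆ (W j + W j) ∪ (W j + (X j).image (sc ρ)) ∪ (W j + (X j).image (sc σ)) := by
      rw [hB]
      simp only
      rw [add_union, add_union]
    have e2 := (card_le_card e1).trans ((card_union_le _ _).trans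
      (Nat.add_le_add_right (card_union_le _ _) _))
    exact_mod_cast e2
  have h3B : Up N 1 (fun j => ((3 • B j).card : ℝ)) := by
    have hr1 : Up N 0 (fun j => ((W j + B j).card : ℝ) / (W j).card) :=
      (hWB.div h.hN h.w2).congr_exp (by ring)
    have hr2 := ((hr1.mul h.hN hr1 (fun j => by positivity)).mul h.hN hr1
      (fun j => by positivity)).mul h.hN h.w1 (fun j => by positivity)
    refine (hr2.congr_exp (show (0 : ℝ) + 0 + 0 + 1 = 1 by ring)).mono ?_
    filter_upwards [h.w2.pos h.hN] with j hj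
    have hne : (W j).Nonempty := by
      rw [← card_pos]
      exact_mod_cast hj
    have h7 := (NNRat.cast_le (K := ℝ)).2 (pluennecke_ruzsa_inequality_nsmul_add hne (B j) 3)
    push_cast at h7
    calc ((3 • B j).card : ℝ) ≤ (((W j + B j).card : ℝ) / (W j).card) ^ 3 * (W j).card := h7
      _ = _ := by ring
  refine vnear h.hN h.hG h3B 3 fun j u' hu' => ?_
  rw [Finset.mem_add] at hu'
  obtain ⟨w, hw, y, hy, rfl⟩ := hu'
  obtain ⟨x, hx, rfl⟩ := mem_image.mp hy
  refine ⟨w + sc ρ x + sc σ x, ?_, fun i => ?_⟩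
  · have e1 : w ∈ B j := mem_union_left _ (mem_union_left _ hw)
    have e2 : sc ρ x ∈ B j := mem_union_left _ (mem_union_right _ (mem_image_of_mem _ hx))
    have e3 : sc σ x ∈ B j := mem_union_right _ (mem_image_of_mem _ hx)
    have e4 : 3 • B j = B j + B j + B j := by
      rw [show (3 : ℕ) = 2 + 1 by norm_num, add_nsmul, two_nsmul, one_nsmul]
    rw [e4]
    exact Finset.add_mem_add (Finset.add_mem_add e1 e2) e3
  · have e1 := sc_near ρ x i
    have e2 := sc_near σ x i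
    have e3 := sc_near (ρ + σ) x i
    simp only [Pi.add_apply]
    push_cast
    rw [abs_le] at e1 e2 e3 ⊢
    constructor <;> linarith [e1.1, e1.2, e2.1, e2.2, e3.1, e3.2]

/-- the field of the good multipliers -/
theorem VBase.field (h : VBase n N W X) {T : Set ℝ} (hT : ∀ σ ∈ T, VOk N W X σ) :
    ∀ σ ∈ Subfield.closure T, VOk N W X σ := by
  have := Subfield.closure_le (s := T) (t := {
    carrier := {σ | VOk N W X σ}
    mul_mem' := fun ha hb => h.mul ha hb
    one_mem' := h.one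
    add_mem' := fun ha hb => h.add ha hb
    zero_mem' := h.zero
    neg_mem' := fun ha => h.neg ha
    inv_mem' := fun x hx => h.inv hx })
  exact fun σ hσ => (this.mpr hT) hσ

end Run7.h912.PA
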